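import Mathlib
import Pool.Agent.N792.RStm
import Pool.Agent.N792.RPt
import Pool.Agent.N792.RX5

/-!
Primes `a n² + b n + c` for almost all `c ≤ C`, `C ≥ x^(2/3+ε)` (helper63): the new sieve weights. The library project
N792 has the exponent `7/10`. Here the weights are `μ(d)` for the `d` with at most one prime factor above `Q`.
-/

set_option autoImplicit false

namespace Pool.Agent.W2helper63.TA

open Finset Filter Topology
open Pool.Agent.N792
open ArithmeticFunction (moebius)

/-- the number of the prime factors `> Q` -/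
def big (Q d : ℕ) : ℕ := #(d.primeFactors.filter (fun p => Q < p))

/-- the weight: `μ(d)` if `d` has at most one prime factor `> Q` -/
noncomputable def gw (Q d : ℕ) : ℝ := if big Q d ≤ 1 then (moebius d : ℝ) else 0

open Classical in
/-- `gw Q (m / q)`, if `q` is the only prime factor of `m` in `(z1, z2]` and there is no smaller one, and `m / q ≤ U` -/
noncomputable def alq (Q z1 z2 U m : ℕ) : ℝ :=
  ∑ q ∈ m.primeFactors.filter (fun q => z1 < q ∧ q ≤ z2), if Rough z2 (m / q) ∧ m / q ≤ U then gw Q (m / q) else 0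

/-- the combination of type I and type II functions which is `1` at the primes and `≤ 0` elsewhere -/
noncomputable def HLQ (z U y Q V K : ℕ) (zs : ℕ → ℕ) (N : ℕ) : ℝ :=
  T1 z U (gw Q) N -
    ∑ i ∈ range K, (T2 z U y (alq Q (zs i) (zs (i + 1)) U) (rg (zs (i + 1))) N +
      T2 z U y (rg (zs (i + 1))) (alq Q (zs i) (zs (i + 1)) U) N) -
    T2 z U y pi0 pi0 N + T2 z V y pi0 (pi2 Q) N + T2 z U y (pi2 Q) pi0 N

open Classical in
/-- the indicator function of the products of `k` different primes `> Q` -/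
noncomputable def pik (Q k N : ℕ) : ℝ := if Squarefree N ∧ Rough Q N ∧ RX5.w N = k then 1 else 0

open Classical in
/-- the indicator function of the products of three different primes `> Q`, the product of two of which is `≤ U` -/
noncomputable def pi3b (Q U N : ℕ) : ℝ :=
  if Squarefree N ∧ Rough Q N ∧ RX5.w N = 3 ∧ ∃ p : ℕ, p.Prime ∧ p ∣ N ∧ N / p ≤ U then 1 else 0

open Classical in
/-- the indicator function of the products of three different primes in `(Q, V]` -/
noncomputable def pi3a (Q V N : ℕ) : ℝ :=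
  if Squarefree N ∧ Rough Q N ∧ RX5.w N = 3 ∧ ∀ p : ℕ, p.Prime → p ∣ N → p ≤ V then 1 else 0

/-- the majorant of the loss -/
noncomputable def Mj (Q U V N : ℕ) : ℝ := 2 * pi3a Q V N + pi3b Q U N + 3 * pik Q 4 N + 4 * pik Q 5 N

lemma gw_abs (Q d : ℕ) : |gw Q d| ≤ 1 := by
  unfold gw
  split_ifs
  · have := ArithmeticFunction.abs_moebius_le_one (n := d)
    exact_mod_cast this
  · simp

lemma gw_sqf {Q d : ℕ} (h : gw Q d ≠ 0) : Squarefree d := by
  by_contra hns
  apply h
  unfold gw
  rw [ArithmeticFunction.moebius_eq_zero_of_not_squarefree hns]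
  simp

lemma big_mul_small {Q q d : ℕ} (hq : q.Prime) (hqQ : q ≤ Q) (hd : d ≠ 0) : big Q (d * q) = big Q d := by
  unfold big
  congr 1
  ext p
  rw [mem_filter, mem_filter, Nat.mem_primeFactors, Nat.mem_primeFactors]
  constructor
  · rintro ⟨⟨h1, h2, _⟩, h3⟩
    refine ⟨⟨h1, ?_, hd⟩, h3⟩
    rcases (Nat.Prime.dvd_mul h1).1 h2 with h4 | h4
    · exact h4
    · have := (Nat.prime_dvd_prime_iff_eq h1 hq).1 h4
      omega
  · rintro ⟨⟨h1, h2, _⟩, h3⟩
    exact ⟨⟨h1, h2.mul_right q, Nat.mul_ne_zero hd hq.ne_zero⟩, h3⟩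

/-- the pairing -/
lemma gw_mul {Q q d : ℕ} (hq : q.Prime) (hqQ : q ≤ Q) (hd : d ≠ 0) (hqd : ¬ q ∣ d) : gw Q (d * q) = - gw Q d := by
  have hcop : d.Coprime q := ((Nat.Prime.coprime_iff_not_dvd hq).2 hqd).symm
  have hmu : moebius (d * q) = - moebius d := by
    rw [ArithmeticFunction.isMultiplicative_moebius.map_mul_of_coprime hcop,
      ArithmeticFunction.moebius_apply_prime hq]
    ring
  unfold gw
  rw [big_mul_small hq hqQ hd, hmu]
  split_ifs
  · push_cast; ring
  · ring

end Pool.Agent.W2helper63.TA
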