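import Mathlib
import Pool.Agent.N792.RX1
import Pool.Agent.W2helper63.TA.Def

/-!
The bounds and the equidistribution of the coefficients of the type II sums (helper63); the proofs follow `N792/RX1`.
-/

set_option autoImplicit false

namespace Pool.Agent.W2helper63.TA
namespace Alq
open Finset Filter Topology
open Pool.Agent.N792
open Pool.Agent.N792.RX1 (rough_mul_iff card_le div_le step_mono step_pi0 step_pi2 step_rg)
open ArithmeticFunction (moebius)

open Classical in
/-- the coefficients of the steps of `alq` -/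
noncomputable def cf (Q z2 U m q : ℕ) : ℝ :=
  if q = 0 then (if Rough z2 m ∧ m ≤ U then gw Q m else 0)
  else if Rough z2 (m / q) then -gw Q (m / q) else 0

lemma cf_abs (Q z2 U m q : ℕ) : |cf Q z2 U m q| ≤ 1 := by
  unfold cf
  split_ifs
  · exact gw_abs Q m
  · simp
  · rw [abs_neg]; exact gw_abs Q _
  · simp

/-- the threshold -/
def thr (Q U e : ℕ) : ℕ := if big Q e = 0 then U / e else min (U / e) Q

lemma big_mul {Q e P : ℕ} (he : e ≠ 0) (hP : P.Prime) (hPe : ¬ P ∣ e) :
    big Q (e * P) = big Q e + if Q < P then 1 else 0 := by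
  unfold big
  rw [Nat.primeFactors_mul he hP.ne_zero, hP.primeFactors, filter_union, card_union_of_disjoint]
  · congr 1
    rw [filter_singleton]
    split_ifs <;> simp
  · rw [disjoint_left]
    intro q h1 h2
    rw [mem_filter] at h1 h2
    rw [mem_singleton.1 h2.1] at h1
    exact hPe (Nat.dvd_of_mem_primeFactors h1.1)

lemma gw_mul' {Q e P U : ℕ} (he : e ≠ 0) (hP : P.Prime) (hPe : ¬ P ∣ e) :
    (if e * P ≤ U then gw Q (e * P) else 0) = -gw Q e * (if P ≤ thr Q U e then 1 else 0) := by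
  have hcop : e.Coprime P := (hP.coprime_iff_not_dvd.2 hPe).symm
  have h3 : moebius (e * P) = - moebius e := by
    rw [ArithmeticFunction.isMultiplicative_moebius.map_mul_of_coprime hcop,
      ArithmeticFunction.moebius_apply_prime hP]
    ring
  have h4 : e * P ≤ U ↔ P ≤ U / e := by
    rw [Nat.le_div_iff_mul_le (Nat.pos_of_ne_zero he), mul_comm]
  unfold gw thr
  rw [big_mul he hP hPe, h3]
  by_cases hQ : Q < P
  · rw [if_pos hQ]
    by_cases hb : big Q e = 0
    · rw [hb]
      by_cases hU : P ≤ U / e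
      · simp [h4, hU]
      · simp [h4, hU]
    · by_cases hb1 : big Q e ≤ 1
      · have h5 : ¬ big Q e + 1 ≤ 1 := by omega
        have h6 : ¬ P ≤ min (U / e) Q := by
          intro h
          have := h.trans (min_le_right _ _)
          omega
        rw [if_neg hb, if_neg h6, if_neg h5]
        simp
      · have h5 : ¬ big Q e + 1 ≤ 1 := by omega
        rw [if_neg h5, if_neg hb1]
        simp
  · rw [if_neg hQ, add_zero]
    by_cases hb1 : big Q e ≤ 1
    · rw [if_pos hb1, if_pos hb1]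
      by_cases hb : big Q e = 0
      · rw [if_pos hb]
        by_cases hU : P ≤ U / e
        · simp [h4, hU]
        · simp [h4, hU]
      · rw [if_neg hb]
        have hQ' : P ≤ Q := not_lt.1 hQ
        by_cases hU : P ≤ U / e
        · simp [h4, hU, hQ']
        · simp [h4, hU]
    · rw [if_neg hb1, if_neg hb1]
      simp

open Classical in
/-- one term of `alq (m P)` -/
lemma term (Q z2 U m q P : ℕ) (hm : m ≠ 0) (hq : q.Prime) (hqm : q ∣ m) (hP : P.Prime) (hPm : ¬ P ∣ m) :
    (if Rough z2 (m * P / q) ∧ m * P / q ≤ U then gw Q (m * P / q) else 0) =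
      cf Q z2 U m q * (if z2 < P then 1 else 0) +
        -cf Q z2 U m q * (if max z2 (thr Q U (m / q)) < P then 1 else 0) := by
  obtain ⟨e, he⟩ := hqm
  have hq0 : q ≠ 0 := hq.ne_zero
  have he0 : e ≠ 0 := by
    intro h
    rw [h, mul_zero] at he
    exact hm he
  have h1 : m / q = e := by rw [he]; exact Nat.mul_div_cancel_left e hq.pos
  have h2 : m * P / q = e * P := by
    rw [he, mul_assoc]; exact Nat.mul_div_cancel_left _ hq.pos
  have hPe : ¬ P ∣ e := fun h => hPm (he ▸ h.mul_left q)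
  have h3 := gw_mul' (Q := Q) (U := U) he0 hP hPe
  unfold cf
  rw [h1, h2, if_neg hq0]
  by_cases hR : Rough z2 e
  · rw [if_pos hR]
    by_cases hz : z2 < P
    · have hR2 : Rough z2 (e * P) := (rough_mul_iff hP).2 ⟨hR, hz⟩
      simp only [hR2, true_and]
      rw [h3, if_pos hz]
      by_cases hU : P ≤ thr Q U e
      · rw [if_pos hU, if_neg]
        · ring
        · intro h
          have := lt_of_le_of_lt (le_max_right _ _) h
          omega
      · rw [if_neg hU, if_pos (max_lt hz (not_le.1 hU))]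
        ring
    · rw [if_neg (fun h => hz ((rough_mul_iff hP).1 h.1).2), if_neg hz,
        if_neg (fun h => hz (lt_of_le_of_lt (le_max_left _ _) h))]
      ring
  · rw [if_neg hR, if_neg (fun h => hR ((rough_mul_iff hP).1 h.1).1)]
    ring

lemma step_alq (Q z1 z2 U m : ℕ) (hm : m ≠ 0) : SwR.Step (alq Q z1 z2 U) m (2 * #m.divisors) := by
  classical
  obtain ⟨S, hS⟩ : ∃ S : Finset ℕ, S = m.primeFactors.filter (fun q => z1 < q ∧ q ≤ z2) := ⟨_, rfl⟩
  have hS0 : 0 ∉ S := by
    intro h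
    rw [hS, mem_filter] at h
    exact (Nat.prime_of_mem_primeFactors h.1).ne_zero rfl
  refine ⟨(insert 0 S).disjSum (insert 0 S),
    fun i => Sum.elim (fun q => cf Q z2 U m q) (fun q => -cf Q z2 U m q) i,
    fun i => Sum.elim (fun q => if q = 0 then z1 else z2)
      (fun q => if q = 0 then max z1 z2 else max z2 (thr Q U (m / q))) i, ?_, ?_, ?_⟩
  · rw [card_disjSum]
    have := card_le m hm S (by rw [hS]; exact filter_subset _ _)
    omega
  · rintro (q | q)
    · exact cf_abs Q z2 U m q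
    · simp only [Sum.elim_inr]
      rw [abs_neg]; exact cf_abs Q z2 U m q
  · intro P hP hPm
    have hPS : P ∉ m.primeFactors := fun h => hPm (Nat.dvd_of_mem_primeFactors h)
    have e1 : alq Q z1 z2 U (m * P) =
        ∑ q ∈ S, (if Rough z2 (m * P / q) ∧ m * P / q ≤ U then gw Q (m * P / q) else 0) +
        (if z1 < P ∧ P ≤ z2 then (if Rough z2 m ∧ m ≤ U then gw Q m else 0) else 0) := by
      unfold alq
      rw [Nat.primeFactors_mul hm hP.ne_zero, hP.primeFactors, filter_union, sum_union, ← hS]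
      · congr 1
        rw [sum_filter, sum_singleton]
        rw [Nat.mul_div_cancel _ hP.pos]
      · rw [disjoint_left]
        intro q h1 h2
        rw [mem_filter] at h1 h2
        rw [mem_singleton.1 h2.1] at h1
        exact hPS h1.1
    have e2 : (if z1 < P ∧ P ≤ z2 then (if Rough z2 m ∧ m ≤ U then gw Q m else 0) else 0) =
        cf Q z2 U m 0 * (if z1 < P then 1 else 0) + -cf Q z2 U m 0 * (if max z1 z2 < P then 1 else 0) := by
      have e3 : cf Q z2 U m 0 = if Rough z2 m ∧ m ≤ U then gw Q m else 0 := by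
        unfold cf
        rw [if_pos rfl]
      rw [← e3]
      by_cases h1 : z1 < P
      · by_cases h2 : P ≤ z2
        · rw [if_pos ⟨h1, h2⟩, if_pos h1, if_neg]
          · ring
          · intro h
            have := lt_of_le_of_lt (le_max_right _ _) h
            omega
        · rw [if_neg (fun h => h2 h.2), if_pos h1, if_pos (max_lt h1 (not_le.1 h2))]
          ring
      · rw [if_neg (fun h => h1 h.1), if_neg h1,
          if_neg (fun h => h1 (lt_of_le_of_lt (le_max_left _ _) h))]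
        ring
    have e4 : ∀ q ∈ S,
        (if Rough z2 (m * P / q) ∧ m * P / q ≤ U then gw Q (m * P / q) else 0) =
        cf Q z2 U m q * (if z2 < P then 1 else 0) +
          -cf Q z2 U m q * (if max z2 (thr Q U (m / q)) < P then 1 else 0) := by
      intro q hq
      rw [hS, mem_filter] at hq
      exact term Q z2 U m q P hm (Nat.prime_of_mem_primeFactors hq.1) (Nat.dvd_of_mem_primeFactors hq.1) hP hPm
    rw [e1, e2, sum_congr rfl e4, sum_add_distrib, sum_disjSum, sum_insert hS0, sum_insert hS0]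
    have hne : ∀ q ∈ S, q ≠ 0 := fun q hq h => hS0 (h ▸ hq)
    have e5 : ∑ q ∈ S, cf Q z2 U m q * (if z2 < P then (1 : ℝ) else 0) =
        ∑ q ∈ S, Sum.elim (fun q => cf Q z2 U m q) (fun q => -cf Q z2 U m q) (Sum.inl q) *
          (if (Sum.elim (fun q => if q = 0 then z1 else z2)
            (fun q => if q = 0 then max z1 z2 else max z2 (thr Q U (m / q))) (Sum.inl q) : ℕ) < P then (1 : ℝ) else 0) := by
      apply sum_congr rfl
      intro q hq
      simp only [Sum.elim_inl, if_neg (hne q hq)]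
    have e6 : ∑ q ∈ S, -cf Q z2 U m q * (if max z2 (thr Q U (m / q)) < P then (1 : ℝ) else 0) =
        ∑ q ∈ S, Sum.elim (fun q => cf Q z2 U m q) (fun q => -cf Q z2 U m q) (Sum.inr q) *
          (if (Sum.elim (fun q => if q = 0 then z1 else z2)
            (fun q => if q = 0 then max z1 z2 else max z2 (thr Q U (m / q))) (Sum.inr q) : ℕ) < P then (1 : ℝ) else 0) := by
      apply sum_congr rfl
      intro q hq
      simp only [Sum.elim_inr, if_neg (hne q hq)]
    rw [e5, e6]
    simp only [Sum.elim_inl, Sum.elim_inr, if_true]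
    ring

lemma alq_abs (Q z1 z2 U k : ℕ) (hk : k ≠ 0) : |alq Q z1 z2 U k| ≤ #k.divisors := by
  classical
  unfold alq
  refine (abs_sum_le_sum_abs _ _).trans ?_
  refine (sum_le_card_nsmul _ _ 1 fun q _ => ?_).trans ?_
  · split_ifs
    · exact gw_abs Q _
    · simp
  · rw [nsmul_eq_mul, mul_one]
    have h1 := card_le k hk (k.primeFactors.filter (fun q => z1 < q ∧ q ≤ z2)) (filter_subset _ _)
    have h2 : #(k.primeFactors.filter (fun q => z1 < q ∧ q ≤ z2)) ≤
        #(insert 0 (k.primeFactors.filter (fun q => z1 < q ∧ q ≤ z2))) := card_le_card (subset_insert _ _)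
    exact_mod_cast h2.trans h1

end Alq

open Finset Filter Topology
open Pool.Agent.N792
open Pool.Agent.N792.RX1 (div_le step_mono)

/-- X1: the equidistribution of the coefficients -/
def X1q : Prop := ∀ η : ℝ, 0 < η → ∀ As E : ℕ, ∃ x0 : ℕ, ∀ x : ℕ, x0 ≤ x → ∀ z z1 z2 Q U Jw ts : ℕ,
    (x : ℝ) ^ η ≤ z → z ≤ x → Real.log x ^ As ≤ ((2 ^ 2 ^ Jw : ℕ) : ℝ) → ((2 ^ 2 ^ Jw : ℕ) : ℝ) ≤ Real.log x ^ E →
    Real.log x ^ (As + 5) ≤ (2 : ℝ) ^ ts → (2 : ℝ) ^ ts ≤ Real.log x ^ E →
    EqD x z ts (2 ^ 2 ^ Jw) As pi0 ∧ EqD x z ts (2 ^ 2 ^ Jw) As (pi2 Q) ∧ EqD x z ts (2 ^ 2 ^ Jw) As (rg z2) ∧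
      EqD x z ts (2 ^ 2 ^ Jw) As (alq Q z1 z2 U)

/-- the bounds and the equidistribution of the coefficients of the type II sums -/
theorem x1q : X1q := by
  intro η hη As E
  obtain ⟨x3, h3⟩ := x1s η hη As E
  obtain ⟨M, hM⟩ : ∃ M : ℕ, M = 2 * 2 ^ ⌊3 / η⌋₊ := ⟨_, rfl⟩
  have hM1 : 1 ≤ M := by
    rw [hM]
    have : 1 ≤ 2 ^ ⌊3 / η⌋₊ := Nat.one_le_two_pow
    omega
  obtain ⟨x1, h1⟩ := RX1.sharp_gen η hη M As E
  obtain ⟨x2, h2⟩ := eventually_atTop.1 (Shp.log_ge ((M : ℝ) + 1))
  refine ⟨max x3 (max x1 (max x2 2)), ?_⟩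
  intro x hx z z1 z2 Q U Jw ts hz hzx hw1 hw2 ht1 ht2
  obtain ⟨a1, a2, a3, -⟩ := h3 x (by omega) z z1 z2 Q U Jw ts hz hzx hw1 hw2 ht1 ht2
  refine ⟨a1, a2, a3, ?_⟩
  have hxx1 : x1 ≤ x := by omega
  have hxx2 : x2 ≤ x := by omega
  have hxx3 : 1 < x := by omega
  have hL := h2 x hxx2
  have hM0 : (1 : ℝ) ≤ M := by exact_mod_cast hM1
  have hL2 : (M : ℝ) ≤ Real.log x ^ 2 := by nlinarith
  have hdiv : ∀ k, k ≤ x ^ 3 → Rough z k → 2 * #k.divisors ≤ M := fun k hk hkr => by
    rw [hM]; exact RX1.div_le η hη x z k hxx3 hz hk hkr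
  have key : ∀ g : ℕ → ℝ, (∀ k, k ≤ x ^ 3 → Rough z k → |g k| ≤ M) →
      (∀ m, m ≤ x ^ 3 → Rough z m → SwR.Step g m M) → EqD x z ts (2 ^ 2 ^ Jw) As g := by
    intro g hb hS
    exact ⟨fun k hk hkr => (hb k hk hkr).trans hL2, fun i u q r hxi hi3 hq hqA hu1 hu2 =>
      h1 x hxx1 z Jw ts i u q r hz hzx hw1 hw2 ht1 ht2 hxi hi3 hq hqA hu1 hu2 g hb hS⟩
  refine key _ ?_ ?_
  · intro k hk hkr
    have e1 := Alq.alq_abs Q z1 z2 U k hkr.1
    have e2 : (#k.divisors : ℝ) ≤ M := by
      exact_mod_cast (by have := hdiv k hk hkr; omega : #k.divisors ≤ M)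
    exact e1.trans e2
  · intro m hm hmr
    exact RX1.step_mono (Alq.step_alq Q z1 z2 U m hmr.1) (hdiv m hm hmr)

end Pool.Agent.W2helper63.TA
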