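import Mathlib
import Pool.Agent.N792.RX4

/-!
Sums over products of primes in the coordinates `log (3 log p / log x)` (helper63).
-/

set_option autoImplicit false

namespace Pool.Agent.W2helper63.TA
namespace Cst

open Finset Filter Topology
open Pool.Agent.N792
open Pool.Agent.N792.RX4 (Pp mem_Pp)

/-- Mertens -/
lemma mertL (u v ε : ℝ) (hu : 0 < u) (huv : u ≤ v) (hε : 0 < ε) : ∀ᶠ x : ℕ in atTop,
    ∑ p ∈ Pp x u v, (1 : ℝ) / p ≤ Real.log (v / u) + ε := by
  obtain ⟨C, hC0, hC⟩ := Pool.Agent.Helper923.HMertens.mertens_ratio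
  have hl : Tendsto (fun x : ℕ => Real.log x) atTop atTop :=
    Real.tendsto_log_atTop.comp tendsto_natCast_atTop_atTop
  have hl2 : 0 < Real.log 2 := Real.log_pos (by norm_num)
  have hl2' : Real.log 2 ≤ 1 := by linarith [Real.log_two_lt_d9]
  have hv : 0 < v := hu.trans_le huv
  filter_upwards [hl.eventually_ge_atTop (2 * (v / u + ε / 2) / (ε * u)), hl.eventually_ge_atTop ((2 * C / ε + 1) / u),
    hl.eventually_ge_atTop (2 / u), eventually_ge_atTop 1] with x h1 h2 h3 hx
  have hx0 : (0 : ℝ) < x := by exact_mod_cast hx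
  obtain ⟨L, hL⟩ : ∃ L : ℝ, L = Real.log x := ⟨_, rfl⟩
  rw [← hL] at h1 h2 h3
  rw [div_le_iff₀ (by positivity)] at h1 h2 h3
  have hL0 : 0 < L := by
    by_contra hcon
    push Not at hcon
    nlinarith
  have e1 : (4 : ℝ) ≤ (x : ℝ) ^ u := by
    rw [← Real.log_le_log_iff (by norm_num) (Real.rpow_pos_of_pos hx0 _), Real.log_rpow hx0, ← hL]
    have : Real.log 4 = 2 * Real.log 2 := by
      rw [show (4 : ℝ) = 2 ^ 2 by norm_num, Real.log_pow]; norm_num
    rw [this]
    linarith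
  have e2 : (x : ℝ) ^ u / 2 ≤ (⌊(x : ℝ) ^ u⌋₊ : ℝ) := by
    have := Nat.lt_floor_add_one ((x : ℝ) ^ u)
    linarith
  have e3 : (⌊(x : ℝ) ^ v⌋₊ : ℝ) ≤ (x : ℝ) ^ v := Nat.floor_le (Real.rpow_nonneg hx0.le _)
  have e4 : (2 : ℝ) ≤ (⌊(x : ℝ) ^ u⌋₊ : ℝ) := by linarith
  have e5 : ⌊(x : ℝ) ^ u⌋₊ ≤ ⌊(x : ℝ) ^ v⌋₊ :=
    Nat.floor_le_floor (Real.rpow_le_rpow_of_exponent_le (by exact_mod_cast hx) huv)
  have e4' : 2 ≤ ⌊(x : ℝ) ^ u⌋₊ := by exact_mod_cast e4
  have e6 : (2 : ℝ) ≤ (⌊(x : ℝ) ^ v⌋₊ : ℝ) := by exact_mod_cast e4'.trans e5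
  have l1 : u * L - Real.log 2 ≤ Real.log (⌊(x : ℝ) ^ u⌋₊ : ℝ) := by
    have := Real.log_le_log (by positivity) e2
    rwa [Real.log_div (by positivity) (by norm_num), Real.log_rpow hx0, ← hL] at this
  have l2 : Real.log (⌊(x : ℝ) ^ v⌋₊ : ℝ) ≤ v * L := by
    have := Real.log_le_log (by linarith) e3
    rwa [Real.log_rpow hx0, ← hL] at this
  obtain ⟨A, hA⟩ : ∃ A : ℝ, A = Real.log (⌊(x : ℝ) ^ u⌋₊ : ℝ) := ⟨_, rfl⟩
  obtain ⟨B, hB⟩ : ∃ B : ℝ, B = Real.log (⌊(x : ℝ) ^ v⌋₊ : ℝ) := ⟨_, rfl⟩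
  have key := hC _ _ e4' e5
  rw [← hA] at l1 key
  rw [← hB] at l2 key
  have hB0 : 0 < B := by rw [hB]; exact Real.log_pos (by linarith)
  have hA0 : 0 < A := by nlinarith
  have k1 := (abs_le.1 key).2
  have k3 : B / A ≤ v / u + ε / 2 := by
    rw [div_le_iff₀ hA0]
    have hvu : 0 < v / u + ε / 2 := by positivity
    have h4 : (v / u + ε / 2) * (u * L - Real.log 2) ≤ (v / u + ε / 2) * A :=
      mul_le_mul_of_nonneg_left l1 hvu.le
    have h5 : (v / u + ε / 2) * (u * L - Real.log 2) = v * L + ε / 2 * u * L - (v / u + ε / 2) * Real.log 2 := by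
      field_simp
    have h6 : (v / u + ε / 2) * Real.log 2 ≤ (v / u + ε / 2) * 1 := mul_le_mul_of_nonneg_left hl2' hvu.le
    nlinarith
  have k2 : Real.log (B / A) ≤ Real.log (v / u) + ε / 2 := by
    have hvu : 1 ≤ v / u := by rwa [one_le_div hu]
    have g1 : Real.log (B / A) ≤ Real.log (v / u + ε / 2) := Real.log_le_log (by positivity) k3
    have g2 : v / u + ε / 2 ≤ (v / u) * (1 + ε / 2) := by nlinarith
    have g3 : Real.log (v / u + ε / 2) ≤ Real.log ((v / u) * (1 + ε / 2)) := Real.log_le_log (by positivity) g2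
    rw [Real.log_mul (by positivity) (by positivity)] at g3
    have g4 : Real.log (1 + ε / 2) ≤ ε / 2 := by
      have := Real.log_le_sub_one_of_pos (by positivity : 0 < 1 + ε / 2)
      linarith
    linarith
  have k4 : C / A ≤ ε / 2 := by
    rw [div_le_iff₀ hA0]
    have h7 : 2 * C / ε ≤ A := by nlinarith
    rw [div_le_iff₀ hε] at h7
    linarith
  unfold Pp
  linarith

/-- the coordinate -/
noncomputable def wl (x p : ℕ) : ℝ := Real.log (3 * Real.log p / Real.log x)

open Classical in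
/-- the products of `k` different primes `> x^(1/3)` with the sum of the coordinates `≤ W` -/
noncomputable def SS (x k : ℕ) (W : ℝ) : Finset ℕ := (Icc 1 (x ^ 2)).filter (fun m => Squarefree m ∧ #m.primeFactors = k ∧
  (∀ p ∈ m.primeFactors, (x : ℝ) ^ (1 / 3 : ℝ) < p) ∧ ∑ p ∈ m.primeFactors, wl x p ≤ W)

/-- the sum of the reciprocals -/
noncomputable def GG (x k : ℕ) (W : ℝ) : ℝ := ∑ m ∈ SS x k W, (1 : ℝ) / m

lemma wl_pos {x p : ℕ} (hx : 2 ≤ x) (hp : (x : ℝ) ^ (1 / 3 : ℝ) < p) : 0 < wl x p := by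
  have hx1 : (1 : ℝ) < x := by exact_mod_cast (by omega : 1 < x)
  have hL : 0 < Real.log x := Real.log_pos hx1
  have h1 := Real.log_lt_log (Real.rpow_pos_of_pos (by linarith) _) hp
  rw [Real.log_rpow (by linarith)] at h1
  unfold wl
  apply Real.log_pos
  rw [lt_div_iff₀ hL]
  linarith

/-- a cell -/
lemma wl_cell {x p : ℕ} {α β : ℝ} (hx : 2 ≤ x) (hp : p.Prime) (h1 : α < wl x p)
    (h2 : wl x p ≤ β) : p ∈ Pp x (Real.exp α / 3) (Real.exp β / 3) := by
  have hx1 : (1 : ℝ) < x := by exact_mod_cast (by omega : 1 < x)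
  have hL : 0 < Real.log x := Real.log_pos hx1
  have hp1 : 0 < Real.log p := Real.log_pos (by exact_mod_cast hp.one_lt)
  have hv : 0 < 3 * Real.log p / Real.log x := by positivity
  unfold wl at h1 h2
  rw [Real.lt_log_iff_exp_lt hv, lt_div_iff₀ hL] at h1
  rw [Real.log_le_iff_le_exp hv, div_le_iff₀ hL] at h2
  exact mem_Pp (by omega) hp (by linarith) (by linarith)

/-- removing one prime -/
lemma GG_step {x k : ℕ} {W : ℝ} : ((k : ℝ) + 1) * GG x (k + 1) W ≤
    ∑ p ∈ (Icc 1 (x ^ 2)).filter (fun p : ℕ => p.Prime ∧ (x : ℝ) ^ (1 / 3 : ℝ) < p), (1 : ℝ) / p * GG x k (W - wl x p) := by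
  classical
  obtain ⟨P, hP⟩ : ∃ P : Finset ℕ, P = (Icc 1 (x ^ 2)).filter (fun p : ℕ => p.Prime ∧ (x : ℝ) ^ (1 / 3 : ℝ) < p) := ⟨_, rfl⟩
  rw [← hP]
  have e1 : ((k : ℝ) + 1) * GG x (k + 1) W = ∑ m ∈ SS x (k + 1) W, ∑ p ∈ m.primeFactors, (1 : ℝ) / m := by
    unfold GG
    rw [mul_sum]
    apply sum_congr rfl
    intro m hm
    unfold SS at hm
    rw [mem_filter] at hm
    rw [sum_const, hm.2.2.1, nsmul_eq_mul]
    push_cast
    rfl
  have e2 : ∑ m ∈ SS x (k + 1) W, ∑ p ∈ m.primeFactors, (1 : ℝ) / m =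
      ∑ p ∈ P, ∑ m ∈ (SS x (k + 1) W).filter (fun m => p ∈ m.primeFactors), (1 : ℝ) / m := by
    simp_rw [sum_filter]
    rw [sum_comm]
    apply sum_congr rfl
    intro m hm
    rw [← sum_filter]
    apply sum_congr _ (fun _ _ => rfl)
    ext p
    rw [mem_filter]
    constructor
    · intro hp
      refine ⟨?_, hp⟩
      unfold SS at hm
      rw [mem_filter, mem_Icc] at hm
      rw [hP, mem_filter, mem_Icc]
      have h1 := Nat.prime_of_mem_primeFactors hp
      refine ⟨⟨h1.pos, (Nat.le_of_dvd (by omega) (Nat.dvd_of_mem_primeFactors hp)).trans hm.1.2⟩, h1, hm.2.2.2.1 p hp⟩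
    · exact fun h => h.2
  rw [e1, e2]
  apply sum_le_sum
  intro p hp
  rw [hP, mem_filter] at hp
  unfold GG
  rw [mul_sum]
  have hinj : Set.InjOn (fun m => m / p) ((SS x (k + 1) W).filter (fun m => p ∈ m.primeFactors)) := by
    intro m hm m' hm' h
    rw [mem_coe, mem_filter] at hm hm'
    simp only at h
    rw [← Nat.mul_div_cancel' (Nat.dvd_of_mem_primeFactors hm.2), h,
      Nat.mul_div_cancel' (Nat.dvd_of_mem_primeFactors hm'.2)]
  calc ∑ m ∈ (SS x (k + 1) W).filter (fun m => p ∈ m.primeFactors), (1 : ℝ) / m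
      = ∑ m ∈ (SS x (k + 1) W).filter (fun m => p ∈ m.primeFactors), (1 : ℝ) / p * (1 / ((m / p : ℕ) : ℝ)) := by
        apply sum_congr rfl
        intro m hm
        rw [mem_filter] at hm
        have h1 := Nat.mul_div_cancel' (Nat.dvd_of_mem_primeFactors hm.2)
        have h2 : (m : ℝ) = p * ((m / p : ℕ) : ℝ) := by exact_mod_cast h1.symm
        rw [h2, div_mul_div_comm, one_mul]
    _ = ∑ m' ∈ ((SS x (k + 1) W).filter (fun m => p ∈ m.primeFactors)).image (fun m => m / p), (1 : ℝ) / p * (1 / (m' : ℝ)) := by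
        rw [sum_image hinj]
    _ ≤ _ := by
        refine sum_le_sum_of_subset_of_nonneg ?_ (fun m' _ _ => by positivity)
        intro m' hm'
        rw [mem_image] at hm'
        obtain ⟨m, hm, rfl⟩ := hm'
        rw [mem_filter] at hm
        obtain ⟨hm, hpm⟩ := hm
        unfold SS at hm ⊢
        rw [mem_filter, mem_Icc] at hm ⊢
        obtain ⟨⟨g1, g2⟩, g3, g4, g5, g6⟩ := hm
        have hpd := Nat.dvd_of_mem_primeFactors hpm
        have hpp := Nat.prime_of_mem_primeFactors hpm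
        obtain ⟨m', rfl⟩ := hpd
        have hm'0 : 0 < m' := by
          rcases Nat.eq_zero_or_pos m' with h | h
          · rw [h] at g1; simp at g1
          · exact h
        rw [Nat.mul_div_cancel_left _ hpp.pos]
        have hsq : Squarefree m' := g3.squarefree_of_dvd (dvd_mul_left _ _)
        have hcop : Nat.Coprime p m' := Nat.coprime_of_squarefree_mul g3
        have hpf : (p * m').primeFactors = insert p m'.primeFactors := by
          rw [hcop.primeFactors_mul, hpp.primeFactors]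
          rfl
        have hpn : p ∉ m'.primeFactors := by
          intro h
          have := Nat.dvd_of_mem_primeFactors h
          exact (Nat.Prime.coprime_iff_not_dvd hpp).1 hcop this
        rw [hpf, card_insert_of_notMem hpn] at g4
        rw [hpf, sum_insert hpn] at g6
        refine ⟨⟨hm'0, ?_⟩, hsq, by omega, ?_, by linarith⟩
        · exact (Nat.le_mul_of_pos_left m' hpp.pos).trans g2
        · intro q hq
          exact g5 q (by rw [hpf]; exact mem_insert_of_mem hq)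

lemma GG_neg {x k : ℕ} {W : ℝ} (hx : 2 ≤ x) (hW : W < 0) : GG x k W = 0 := by
  unfold GG
  apply sum_eq_zero
  intro m hm
  exfalso
  unfold SS at hm
  rw [mem_filter] at hm
  obtain ⟨-, -, -, h1, h2⟩ := hm
  have : 0 ≤ ∑ p ∈ m.primeFactors, wl x p := sum_nonneg fun p hp => (wl_pos hx (h1 p hp)).le
  linarith

lemma pow_step (k : ℕ) {y h : ℝ} (hy : 0 ≤ y) (hh : 0 ≤ h) : ((k : ℝ) + 1) * (h * y ^ k) ≤ (y + h) ^ (k + 1) - y ^ (k + 1) := by
  induction k with
  | zero => simp
  | succ k ih =>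
    have h1 : (y + h) * (((k : ℝ) + 1) * (h * y ^ k)) ≤ (y + h) * ((y + h) ^ (k + 1) - y ^ (k + 1)) :=
      mul_le_mul_of_nonneg_left ih (by linarith)
    have h2 : (y + h) ^ (k + 1 + 1) - y ^ (k + 1 + 1) = (y + h) * ((y + h) ^ (k + 1) - y ^ (k + 1)) + h * y ^ (k + 1) := by
      ring
    have h3 : (((k + 1 : ℕ) : ℝ) + 1) * (h * y ^ (k + 1)) =
        (y + h) * (((k : ℝ) + 1) * (h * y ^ k)) + h * y ^ (k + 1) - ((k : ℝ) + 1) * (h * h * y ^ k) := by
      push_cast
      ring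
    have h4 : 0 ≤ ((k : ℝ) + 1) * (h * h * y ^ k) := by positivity
    rw [h2, h3]
    linarith

/-- the Riemann sum -/
lemma riemann (k n : ℕ) {W ρ h : ℝ} (hρ : 0 ≤ ρ) (hh : 0 ≤ h) (hW : 0 ≤ W) :
    ((k : ℝ) + 1) * ∑ j ∈ (range n).filter (fun j : ℕ => (j : ℝ) * h < W), h * (W - j * h + ρ) ^ k ≤ (W + ρ + h) ^ (k + 1) := by
  obtain ⟨a, ha⟩ : ∃ a : ℕ → ℝ, a = fun j : ℕ => max (W + ρ + h - j * h) 0 := ⟨_, rfl⟩
  have ha0 : ∀ j, 0 ≤ a j := fun j => by rw [ha]; exact le_max_right _ _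
  have hmono : ∀ j, a (j + 1) ≤ a j := by
    intro j
    rw [ha]
    apply max_le_max _ le_rfl
    push_cast
    nlinarith
  have h1 : ∀ j ∈ (range n).filter (fun j : ℕ => (j : ℝ) * h < W),
      ((k : ℝ) + 1) * (h * (W - j * h + ρ) ^ k) ≤ a j ^ (k + 1) - a (j + 1) ^ (k + 1) := by
    intro j hj
    rw [mem_filter] at hj
    have h2 : 0 ≤ W - j * h + ρ := by linarith [hj.2]
    have h3 := pow_step k h2 hh
    have e1 : a j = W - j * h + ρ + h := by
      rw [ha]
      simp only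
      rw [max_eq_left (by linarith)]
      ring
    have e2 : a (j + 1) = W - j * h + ρ := by
      rw [ha]
      simp only
      push_cast
      rw [max_eq_left (by linarith)]
      ring
    rw [e1, e2]
    exact h3
  calc ((k : ℝ) + 1) * ∑ j ∈ (range n).filter (fun j : ℕ => (j : ℝ) * h < W), h * (W - j * h + ρ) ^ k
      = ∑ j ∈ (range n).filter (fun j : ℕ => (j : ℝ) * h < W), ((k : ℝ) + 1) * (h * (W - j * h + ρ) ^ k) := by rw [mul_sum]
    _ ≤ ∑ j ∈ (range n).filter (fun j : ℕ => (j : ℝ) * h < W), (a j ^ (k + 1) - a (j + 1) ^ (k + 1)) := sum_le_sum h1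
    _ ≤ ∑ j ∈ range n, (a j ^ (k + 1) - a (j + 1) ^ (k + 1)) := by
        refine sum_le_sum_of_subset_of_nonneg (filter_subset _ _) fun j _ _ => ?_
        have := pow_le_pow_left₀ (ha0 (j + 1)) (hmono j) (k + 1)
        linarith
    _ = a 0 ^ (k + 1) - a n ^ (k + 1) := by rw [sum_range_sub']
    _ ≤ a 0 ^ (k + 1) := by
        have := pow_nonneg (ha0 n) (k + 1)
        linarith
    _ = (W + ρ + h) ^ (k + 1) := by
        rw [ha]
        simp only [Nat.cast_zero, zero_mul, sub_zero]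
        rw [max_eq_left (by linarith)]

/-- **the sum over the products of `k` primes** -/
theorem GG_le (k : ℕ) (B : ℝ) (hB : 0 < B) : ∀ ρ : ℝ, 0 < ρ → ∀ᶠ x : ℕ in atTop, ∀ W : ℝ, 0 ≤ W → W ≤ B →
    GG x k W ≤ (1 + ρ) * ((W + ρ) ^ k / (k.factorial : ℝ) ^ 2) := by
  classical
  induction k with
  | zero =>
    intro ρ hρ
    filter_upwards [eventually_ge_atTop 1] with x hx W hW hWB
    have h1 : SS x 0 W ⊆ {1} := by
      intro m hm
      unfold SS at hm
      rw [mem_filter, mem_Icc] at hm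
      rw [mem_singleton]
      have h2 := Nat.prod_primeFactors_of_squarefree hm.2.1
      rw [card_eq_zero.1 hm.2.2.1, prod_empty] at h2
      exact h2.symm
    have h2 : GG x 0 W ≤ 1 := by
      unfold GG
      refine (sum_le_sum_of_subset_of_nonneg h1 fun m _ _ => by positivity).trans ?_
      simp
    simp only [pow_zero, Nat.factorial_zero, Nat.cast_one, one_pow, div_one, mul_one]
    linarith
  | succ k ih =>
    intro ρ hρ
    obtain ⟨ρ', hρ'⟩ : ∃ ρ' : ℝ, ρ' = min (ρ / 3) (1 / 3) := ⟨_, rfl⟩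
    have hρ0 : 0 < ρ' := by rw [hρ']; positivity
    have hρ1 : ρ' ≤ ρ / 3 := by rw [hρ']; exact min_le_left _ _
    have hρ2 : ρ' ≤ 1 / 3 := by rw [hρ']; exact min_le_right _ _
    obtain ⟨n, hn⟩ := exists_nat_gt (B / ρ')
    have hn0 : (0 : ℝ) < n := lt_of_le_of_lt (by positivity) hn
    obtain ⟨h, hh⟩ : ∃ h : ℝ, h = B / n := ⟨_, rfl⟩
    have hh0 : 0 < h := by rw [hh]; positivity
    have hhρ : h ≤ ρ' := by
      rw [hh, div_le_iff₀ hn0]
      rw [div_lt_iff₀ hρ0] at hn
      linarith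
    have hnh : n * h = B := by rw [hh]; field_simp
    have hcells : ∀ᶠ x : ℕ in atTop, ∀ j ∈ range n,
        ∑ p ∈ Pp x (Real.exp (j * h) / 3) (Real.exp ((j + 1) * h) / 3), (1 : ℝ) / p ≤
          Real.log ((Real.exp ((j + 1) * h) / 3) / (Real.exp (j * h) / 3)) + h * ρ' :=
      (eventually_all_finset _).2 fun j _ => mertL _ _ _ (by positivity) (by
        apply div_le_div_of_nonneg_right _ (by norm_num)
        exact Real.exp_le_exp.2 (by nlinarith)) (by positivity)
    filter_upwards [ih ρ' hρ0, hcells, eventually_ge_atTop 2] with x hx1 hx2 hx3 W hW hWB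
    have hcell : ∀ j ∈ range n, ∑ p ∈ Pp x (Real.exp (j * h) / 3) (Real.exp ((j + 1) * h) / 3), (1 : ℝ) / p ≤ h * (1 + ρ') := by
      intro j hj
      refine (hx2 j hj).trans ?_
      rw [div_div_div_cancel_right₀ (by norm_num), ← Real.exp_sub, Real.log_exp]
      apply le_of_eq
      ring
    have hstep := GG_step (x := x) (k := k) (W := W)
    obtain ⟨P, hP⟩ : ∃ P : Finset ℕ, P = (Icc 1 (x ^ 2)).filter (fun p : ℕ => p.Prime ∧ (x : ℝ) ^ (1 / 3 : ℝ) < p) := ⟨_, rfl⟩
    rw [← hP] at hstep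
    obtain ⟨F, hF⟩ : ∃ F : ℝ, F = (k.factorial : ℝ) ^ 2 := ⟨_, rfl⟩
    have hF0 : 0 < F := by rw [hF]; positivity
    -- the bound for one prime
    have hterm : ∀ p ∈ P, (1 : ℝ) / p * GG x k (W - wl x p) ≤
        ∑ j ∈ (range n).filter (fun j : ℕ => (j : ℝ) * h < W),
          (if p ∈ Pp x (Real.exp (j * h) / 3) (Real.exp ((j + 1) * h) / 3) then
            (1 : ℝ) / p * ((1 + ρ') * ((W - j * h + ρ') ^ k / F)) else 0) := by
      intro p hp
      rw [hP, mem_filter] at hp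
      have hw0 := wl_pos hx3 hp.2.2
      have hnn : ∀ j ∈ (range n).filter (fun j : ℕ => (j : ℝ) * h < W),
          0 ≤ (if p ∈ Pp x (Real.exp (j * h) / 3) (Real.exp ((j + 1) * h) / 3) then
            (1 : ℝ) / p * ((1 + ρ') * ((W - j * h + ρ') ^ k / F)) else 0) := by
        intro j hj
        rw [mem_filter] at hj
        split_ifs
        · have : 0 ≤ W - j * h + ρ' := by linarith [hj.2]
          positivity
        · exact le_rfl
      rcases lt_or_ge W (wl x p) with hWp | hWp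
      · rw [GG_neg hx3 (by linarith), mul_zero]
        exact sum_nonneg hnn
      · -- the cell
        obtain ⟨j, hj1, hj2⟩ : ∃ j : ℕ, (j : ℝ) * h < wl x p ∧ wl x p ≤ ((j : ℝ) + 1) * h := by
          have hex : ∃ j : ℕ, wl x p ≤ ((j : ℝ) + 1) * h := by
            refine ⟨n, ?_⟩
            nlinarith
          refine ⟨Nat.find hex, ?_, Nat.find_spec hex⟩
          rcases Nat.eq_zero_or_pos (Nat.find hex) with h0 | h0
          · rw [h0]; simpa using hw0
          · have := Nat.find_min hex (m := Nat.find hex - 1) (by omega)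
            push Not at this
            have e : (((Nat.find hex - 1 : ℕ) : ℝ) + 1) = (Nat.find hex : ℝ) := by
              rw [Nat.cast_sub h0]
              push_cast
              ring
            rwa [e] at this
        have hjn : j < n := by
          have : (j : ℝ) * h < n * h := by linarith
          have := lt_of_mul_lt_mul_right this hh0.le
          exact_mod_cast this
        have hjm : j ∈ (range n).filter (fun j : ℕ => (j : ℝ) * h < W) := by
          rw [mem_filter, mem_range]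
          exact ⟨hjn, by linarith⟩
        refine le_trans ?_ (single_le_sum hnn hjm)
        rw [if_pos (wl_cell hx3 hp.2.1 hj1 hj2)]
        apply mul_le_mul_of_nonneg_left _ (by positivity)
        refine (hx1 (W - wl x p) (by linarith) (by linarith)).trans ?_
        rw [← hF]
        apply mul_le_mul_of_nonneg_left _ (by linarith)
        apply div_le_div_of_nonneg_right _ hF0.le
        exact pow_le_pow_left₀ (by linarith) (by linarith) k
    have hsum : ∑ p ∈ P, (1 : ℝ) / p * GG x k (W - wl x p) ≤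
        ∑ j ∈ (range n).filter (fun j : ℕ => (j : ℝ) * h < W), h * (1 + ρ') * ((1 + ρ') * ((W - j * h + ρ') ^ k / F)) := by
      refine (sum_le_sum hterm).trans ?_
      rw [sum_comm]
      apply sum_le_sum
      intro j hj
      rw [mem_filter] at hj
      rw [← sum_filter, ← sum_mul]
      have h0 : 0 ≤ W - j * h + ρ' := by linarith [hj.2]
      apply mul_le_mul_of_nonneg_right _ (by positivity)
      refine le_trans ?_ (hcell j hj.1)
      refine sum_le_sum_of_subset_of_nonneg ?_ fun p _ _ => by positivity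
      intro p hp
      exact (mem_filter.1 hp).2
    have hr := riemann k n (W := W) (ρ := ρ') (h := h) hρ0.le hh0.le hW
    obtain ⟨T, hT⟩ : ∃ T : ℝ, T = ∑ j ∈ (range n).filter (fun j : ℕ => (j : ℝ) * h < W), h * (W - j * h + ρ') ^ k := ⟨_, rfl⟩
    have e1 : ∑ j ∈ (range n).filter (fun j : ℕ => (j : ℝ) * h < W), h * (1 + ρ') * ((1 + ρ') * ((W - j * h + ρ') ^ k / F)) =
        (1 + ρ') ^ 2 / F * T := by
      rw [hT, mul_sum]
      apply sum_congr rfl
      intro j _
      ring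
    rw [← hT] at hr
    rw [e1] at hsum
    have hk1 : (0 : ℝ) < (k : ℝ) + 1 := by positivity
    have h2 : ((k : ℝ) + 1) ^ 2 * GG x (k + 1) W ≤ (1 + ρ') ^ 2 / F * (W + ρ' + h) ^ (k + 1) := by
      calc ((k : ℝ) + 1) ^ 2 * GG x (k + 1) W = ((k : ℝ) + 1) * (((k : ℝ) + 1) * GG x (k + 1) W) := by ring
        _ ≤ ((k : ℝ) + 1) * ((1 + ρ') ^ 2 / F * T) := mul_le_mul_of_nonneg_left (hstep.trans hsum) hk1.le
        _ = (1 + ρ') ^ 2 / F * (((k : ℝ) + 1) * T) := by ring
        _ ≤ _ := mul_le_mul_of_nonneg_left hr (by positivity)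
    have h3 : (1 + ρ') ^ 2 ≤ 1 + ρ := by nlinarith
    have h4 : (W + ρ' + h) ^ (k + 1) ≤ (W + ρ) ^ (k + 1) := pow_le_pow_left₀ (by linarith) (by linarith) _
    have h5 : (1 + ρ') ^ 2 / F * (W + ρ' + h) ^ (k + 1) ≤ (1 + ρ) / F * (W + ρ) ^ (k + 1) := by
      apply mul_le_mul _ h4 (by positivity) (by positivity)
      exact div_le_div_of_nonneg_right h3 hF0.le
    have e2 : (((k + 1).factorial : ℕ) : ℝ) ^ 2 = ((k : ℝ) + 1) ^ 2 * F := by
      rw [hF, Nat.factorial_succ]
      push_cast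
      ring
    rw [e2]
    have h6 : GG x (k + 1) W ≤ ((1 + ρ) / F * (W + ρ) ^ (k + 1)) / ((k : ℝ) + 1) ^ 2 := by
      rw [le_div_iff₀ (by positivity)]
      linarith
    refine h6.trans (le_of_eq ?_)
    field_simp

end Cst

end Pool.Agent.W2helper63.TA
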