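import Mathlib
import Pool.Agent.W2helper63.TA.Cst1
import Pool.Agent.N792.RX5

/-!
The pairs of primes for the products of three primes `≤ V` (helper63).
-/

set_option autoImplicit false

namespace Pool.Agent.W2helper63.TA
namespace Cst

open Finset Filter Topology
open Pool.Agent.N792
open Pool.Agent.N792.RX4 (Pp mem_Pp)

lemma log_le_half {t : ℝ} (ht : 1 ≤ t) : Real.log t ≤ (t - 1 / t) / 2 := by
  have h0 : 0 < t := by linarith
  have h1 : Real.log t ≤ Real.sinh (Real.log t) := Real.self_le_sinh_iff.2 (Real.log_nonneg ht)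
  rw [Real.sinh_eq, Real.exp_neg, Real.exp_log h0] at h1
  rw [one_div]
  exact h1

/-- the grid -/
noncomputable def sg (i : ℕ) : ℝ := if i < 15 then 1 / 3 + i * (333 / 10000) else 5 / 6 + 1 / 4000

/-- the bound for a cell -/
noncomputable def rr (i : ℕ) : ℝ := (sg (i + 1) / sg i - sg i / sg (i + 1)) / 2 + 1 / 10 ^ 5

lemma sg_pos (i : ℕ) (hi : i < 15) : 0 < sg i ∧ sg i ≤ sg (i + 1) := by
  have hi0 : (0 : ℝ) ≤ i := Nat.cast_nonneg _
  have hi1 : (i : ℝ) ≤ 14 := by exact_mod_cast (by omega : i ≤ 14)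
  unfold sg
  rw [if_pos hi]
  refine ⟨by positivity, ?_⟩
  split_ifs with h
  · push_cast; linarith
  · linarith

/-- the pairs of cells -/
def IJ : Finset (ℕ × ℕ) := (range 15 ×ˢ range 15).filter (fun t => 14 ≤ t.1 + t.2)

lemma num : ∑ t ∈ IJ, rr t.1 * rr t.2 ≤ 327 / 1000 := by
  have e1 : ∑ t ∈ IJ, rr t.1 * rr t.2 = ∑ i ∈ range 15, rr i * ∑ j ∈ range 15, (if 14 ≤ i + j then rr j else 0) := by
    unfold IJ
    rw [sum_filter, sum_product]
    apply sum_congr rfl
    intro i _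
    rw [mul_sum]
    apply sum_congr rfl
    intro j _
    split_ifs
    · rfl
    · rw [mul_zero]
  rw [e1]
  simp only [Finset.sum_range_succ, Finset.sum_range_zero]
  norm_num [rr, sg]

/-- **the sum over the products of two primes** -/
lemma pairA : ∀ᶠ x : ℕ in atTop, ∀ T : Finset ℕ, (∀ m ∈ T, Squarefree m ∧ #m.primeFactors = 2 ∧
    (∀ p ∈ m.primeFactors, 1 / 3 * Real.log x < Real.log p ∧ Real.log p ≤ (5 / 6 + 1 / 4000) * Real.log x) ∧
    (7 / 6 - 1 / 4000) * Real.log x ≤ Real.log m) → ∑ m ∈ T, (2 : ℝ) / m ≤ 327 / 1000 := by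
  classical
  have hP : ∀ᶠ x : ℕ in atTop, ∀ i ∈ range 15,
      ∑ p ∈ Pp x (sg i) (sg (i + 1)), (1 : ℝ) / p ≤ Real.log (sg (i + 1) / sg i) + 1 / 10 ^ 5 :=
    (eventually_all_finset _).2 fun i hi => mertL _ _ _ (sg_pos i (mem_range.1 hi)).1 (sg_pos i (mem_range.1 hi)).2
      (by norm_num)
  filter_upwards [hP, eventually_ge_atTop 2] with x h1 hx T hT
  have hL : 0 < Real.log x := Real.log_pos (by exact_mod_cast hx)
  have hc : ∀ i ∈ range 15, ∑ p ∈ Pp x (sg i) (sg (i + 1)), (1 : ℝ) / p ≤ rr i := by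
    intro i hi
    obtain ⟨g1, g2⟩ := sg_pos i (mem_range.1 hi)
    refine (h1 i hi).trans ?_
    unfold rr
    have := log_le_half ((one_le_div g1).2 g2)
    rw [one_div_div] at this
    linarith
  -- the cell of a prime
  have hcell : ∀ p : ℕ, p.Prime → 1 / 3 * Real.log x < Real.log p → Real.log p ≤ (5 / 6 + 1 / 4000) * Real.log x →
      ∃ i, i < 15 ∧ sg i * Real.log x < Real.log p ∧ Real.log p ≤ sg (i + 1) * Real.log x := by
    intro p hp k1 k2
    have hex : ∃ i : ℕ, Real.log p ≤ sg (i + 1) * Real.log x := ⟨14, by unfold sg; simpa using k2⟩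
    have h14 : Nat.find hex ≤ 14 := Nat.find_min' hex (by unfold sg; simpa using k2)
    refine ⟨Nat.find hex, by omega, ?_, Nat.find_spec hex⟩
    rcases Nat.eq_zero_or_pos (Nat.find hex) with h0 | h0
    · rw [h0]
      unfold sg
      simpa using k1
    · have := Nat.find_min hex (m := Nat.find hex - 1) (by omega)
      rw [Nat.sub_add_cancel (by omega)] at this
      exact not_le.1 this
  -- the pair of cells
  have hpair : ∀ m ∈ T, ∀ p ∈ m.primeFactors, ∃ t ∈ IJ, p ∈ Pp x (sg t.1) (sg (t.1 + 1)) ∧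
      m / p ∈ Pp x (sg t.2) (sg (t.2 + 1)) := by
    intro m hm p hp
    obtain ⟨g1, g2, g3, g4⟩ := hT m hm
    have hpp := Nat.prime_of_mem_primeFactors hp
    have hpd := Nat.dvd_of_mem_primeFactors hp
    obtain ⟨q, rfl⟩ := hpd
    rw [Nat.mul_div_cancel_left _ hpp.pos]
    have hcop : Nat.Coprime p q := Nat.coprime_of_squarefree_mul g1
    have hsq : Squarefree q := g1.squarefree_of_dvd (dvd_mul_left _ _)
    have hcard : #q.primeFactors = 1 := by
      have h2 : #(p * q).primeFactors = #p.primeFactors + #q.primeFactors := by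
        rw [hcop.primeFactors_mul, card_union_of_disjoint hcop.disjoint_primeFactors]
      rw [g2, hpp.primeFactors, card_singleton] at h2
      omega
    have hqp : q.Prime := RX5.prime_of_w hsq hcard
    have hqm : q ∈ (p * q).primeFactors := by
      rw [Nat.mem_primeFactors]
      exact ⟨hqp, dvd_mul_left _ _, (Nat.mul_pos hpp.pos hqp.pos).ne'⟩
    obtain ⟨i, hi, i1, i2⟩ := hcell p hpp (g3 p hp).1 (g3 p hp).2
    obtain ⟨j, hj, j1, j2⟩ := hcell q hqp (g3 q hqm).1 (g3 q hqm).2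
    refine ⟨(i, j), ?_, mem_Pp (by omega) hpp i1 i2, mem_Pp (by omega) hqp j1 j2⟩
    unfold IJ
    rw [mem_filter, mem_product, mem_range, mem_range]
    refine ⟨⟨hi, hj⟩, ?_⟩
    by_contra hcon
    simp only [not_le] at hcon
    have e1 : Real.log ((p * q : ℕ) : ℝ) = Real.log p + Real.log q := by
      rw [Nat.cast_mul, Real.log_mul (by exact_mod_cast hpp.ne_zero) (by exact_mod_cast hqp.ne_zero)]
    rw [e1] at g4
    have e2 : sg (i + 1) + sg (j + 1) < 7 / 6 - 1 / 4000 := by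
      unfold sg
      rw [if_pos (by omega), if_pos (by omega)]
      push_cast
      have : (i : ℝ) + j ≤ 13 := by exact_mod_cast (by omega : i + j ≤ 13)
      linarith
    have e3 : (sg (i + 1) + sg (j + 1)) * Real.log x < (7 / 6 - 1 / 4000) * Real.log x :=
      mul_lt_mul_of_pos_right e2 hL
    linarith
  -- the sum
  have hcard2 : ∑ m ∈ T, (2 : ℝ) / m = ∑ m ∈ T, ∑ p ∈ m.primeFactors, (1 : ℝ) / p * (1 / ((m / p : ℕ) : ℝ)) := by
    apply sum_congr rfl
    intro m hm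
    have e1 : ∀ p ∈ m.primeFactors, (1 : ℝ) / p * (1 / ((m / p : ℕ) : ℝ)) = 1 / m := by
      intro p hp
      have h1 := Nat.mul_div_cancel' (Nat.dvd_of_mem_primeFactors hp)
      have h2 : (m : ℝ) = p * ((m / p : ℕ) : ℝ) := by exact_mod_cast h1.symm
      rw [div_mul_div_comm, one_mul, ← h2]
    rw [sum_congr rfl e1, sum_const, (hT m hm).2.1, nsmul_eq_mul]
    push_cast
    ring
  rw [hcard2]
  have hle : ∀ m ∈ T, ∀ p ∈ m.primeFactors, (1 : ℝ) / p * (1 / ((m / p : ℕ) : ℝ)) ≤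
      ∑ t ∈ IJ, if p ∈ Pp x (sg t.1) (sg (t.1 + 1)) ∧ m / p ∈ Pp x (sg t.2) (sg (t.2 + 1)) then
        (1 : ℝ) / p * (1 / ((m / p : ℕ) : ℝ)) else 0 := by
    intro m hm p hp
    obtain ⟨t, ht, k1, k2⟩ := hpair m hm p hp
    refine le_trans ?_ (single_le_sum (f := fun t : ℕ × ℕ =>
      if p ∈ Pp x (sg t.1) (sg (t.1 + 1)) ∧ m / p ∈ Pp x (sg t.2) (sg (t.2 + 1)) then
        (1 : ℝ) / p * (1 / ((m / p : ℕ) : ℝ)) else 0) ?_ ht)
    · rw [if_pos ⟨k1, k2⟩]
    · intro s _
      split_ifs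
      · positivity
      · exact le_rfl
  calc ∑ m ∈ T, ∑ p ∈ m.primeFactors, (1 : ℝ) / p * (1 / ((m / p : ℕ) : ℝ))
      ≤ ∑ m ∈ T, ∑ p ∈ m.primeFactors, ∑ t ∈ IJ,
        (if p ∈ Pp x (sg t.1) (sg (t.1 + 1)) ∧ m / p ∈ Pp x (sg t.2) (sg (t.2 + 1)) then
        (1 : ℝ) / p * (1 / ((m / p : ℕ) : ℝ)) else 0) := sum_le_sum fun m hm => sum_le_sum fun p hp => hle m hm p hp
    _ = ∑ t ∈ IJ, ∑ m ∈ T, ∑ p ∈ m.primeFactors,
        (if p ∈ Pp x (sg t.1) (sg (t.1 + 1)) ∧ m / p ∈ Pp x (sg t.2) (sg (t.2 + 1)) then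
        (1 : ℝ) / p * (1 / ((m / p : ℕ) : ℝ)) else 0) := by
        rw [sum_comm]
        apply sum_congr rfl
        intro m _
        rw [sum_comm]
    _ ≤ ∑ t ∈ IJ, rr t.1 * rr t.2 := by
        refine sum_le_sum fun t ht => ?_
        unfold IJ at ht
        rw [mem_filter, mem_product] at ht
        rw [sum_sigma']
        rw [← sum_filter]
        obtain ⟨A, hA⟩ : ∃ A, A = ((T.sigma fun m => m.primeFactors).filter (fun s : (_ : ℕ) × ℕ =>
          s.2 ∈ Pp x (sg t.1) (sg (t.1 + 1)) ∧ s.1 / s.2 ∈ Pp x (sg t.2) (sg (t.2 + 1)))) := ⟨_, rfl⟩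
        rw [← hA]
        have hinj : Set.InjOn (fun s : (_ : ℕ) × ℕ => (s.2, s.1 / s.2)) A := by
          intro s hs s' hs' h
          rw [mem_coe, hA, mem_filter, mem_sigma] at hs hs'
          obtain ⟨m, p⟩ := s
          obtain ⟨m', p'⟩ := s'
          simp only [Prod.mk.injEq] at h hs hs'
          obtain ⟨rfl, h2⟩ := h
          have e1 := Nat.mul_div_cancel' (Nat.dvd_of_mem_primeFactors hs.1.2)
          have e2 := Nat.mul_div_cancel' (Nat.dvd_of_mem_primeFactors hs'.1.2)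
          rw [h2, e2] at e1
          rw [e1]
        calc ∑ s ∈ A, (1 : ℝ) / s.2 * (1 / ((s.1 / s.2 : ℕ) : ℝ))
            = ∑ y ∈ A.image (fun s : (_ : ℕ) × ℕ => (s.2, s.1 / s.2)), (1 : ℝ) / y.1 * (1 / (y.2 : ℝ)) := by
              rw [sum_image hinj]
          _ ≤ ∑ y ∈ Pp x (sg t.1) (sg (t.1 + 1)) ×ˢ Pp x (sg t.2) (sg (t.2 + 1)), (1 : ℝ) / y.1 * (1 / (y.2 : ℝ)) := by
              refine sum_le_sum_of_subset_of_nonneg ?_ fun y _ _ => by positivity
              intro y hy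
              rw [mem_image] at hy
              obtain ⟨s, hs, rfl⟩ := hy
              rw [hA, mem_filter] at hs
              rw [mem_product]
              exact hs.2
          _ = (∑ p ∈ Pp x (sg t.1) (sg (t.1 + 1)), (1 : ℝ) / p) * ∑ q ∈ Pp x (sg t.2) (sg (t.2 + 1)), (1 : ℝ) / q := by
              rw [sum_product, sum_mul_sum]
          _ ≤ rr t.1 * rr t.2 := by
              have h2 := hc t.1 ht.1.1
              have h3 := hc t.2 ht.1.2
              refine mul_le_mul h2 h3 (sum_nonneg fun p _ => by positivity) ?_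
              exact (sum_nonneg fun p _ => by positivity).trans h2
    _ ≤ 327 / 1000 := num

end Cst

end Pool.Agent.W2helper63.TA
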