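import Mathlib
import Pool.Agent.W2helper63.TA.Cst2
import Pool.Agent.N792.RX4
import Pool.Agent.N792.RPt

/-!
The weighted number of the products `m p`, `m ∈ S`, `p` a prime (helper63); the proofs follow `N792/RX4`.
-/

set_option autoImplicit false

namespace Pool.Agent.W2helper63.TA
namespace Cst

open Finset Filter Topology
open Pool.Agent.N792
open QS2 (evN prime_sum)

/-- the sum over the largest prime -/
lemma innerq {a : ℤ} (ha : 0 < a) {C : ℝ} (hC0 : 0 ≤ C)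
    (hC : ∀ (K1 K2 : ℕ) (ℓ : ℝ) (h : ℕ → ℝ), 2 ≤ K1 → K1 ≤ K2 →
      0 < ℓ → ℓ ≤ Real.log K1 → (∀ N, K1 + 1 ≤ N → h (N + 1) ≤ h N) → (∀ N, 0 ≤ h N) →
      |∑ k ∈ Ioc K1 K2, pi0 k * h k - ∑ k ∈ Ioc K1 K2, h k / Real.log k| ≤
        2 * (C * K2 / ℓ ^ 4) * h (K1 + 1)) {F1 F2 m : ℕ} {L : ℝ} (hm : 0 < m) (hF1 : 1 ≤ F1) (hF : F1 ≤ F2)
    (hL : 50 ≤ L) (hl : 1 / 5 * L ≤ Real.log ((F1 : ℝ) / m)) :
    ∑ k ∈ Ioc (F1 / m) (F2 / m), pi0 k * hw a (m * k) ≤
      1 / Real.log ((F1 : ℝ) / m) * ((√((F2 : ℝ) / a) - √((F1 : ℝ) / a)) / m + 1 / (a * √((F1 : ℝ) / a))) +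
        10000 * C * ((F2 : ℝ) / a) / (m * L ^ 4 * √((F1 : ℝ) / a)) := by
  have ha1 : (1 : ℝ) ≤ a := by exact_mod_cast ha
  have ha0 : (0 : ℝ) < a := by linarith
  have hm0 : (0 : ℝ) < m := by exact_mod_cast hm
  have hF10 : (0 : ℝ) < F1 := by exact_mod_cast hF1
  have hFF : (F1 : ℝ) ≤ F2 := by exact_mod_cast hF
  have hF20 : (0 : ℝ) < F2 := by linarith
  have hl2' : Real.log 2 ≤ 1 := by linarith [Real.log_two_lt_d9]
  have hy0 : 0 < (F1 : ℝ) / m := by positivity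
  -- `F1 / m ≥ 4`
  have hy4 : 4 ≤ (F1 : ℝ) / m := by
    have h1 : Real.exp 6 ≤ (F1 : ℝ) / m := by
      rw [← Real.le_log_iff_exp_le hy0]
      linarith
    have h2 := Real.add_one_le_exp 6
    linarith
  obtain ⟨b1, b2⟩ := QS2.fl_bd F1 hm
  obtain ⟨b3, b4⟩ := QS2.fl_bd F2 hm
  have hK1 : (F1 : ℝ) / m / 2 ≤ ((F1 / m : ℕ) : ℝ) := by linarith
  have hK1' : 2 ≤ F1 / m := by
    have : (2 : ℝ) ≤ ((F1 / m : ℕ) : ℝ) := by linarith
    exact_mod_cast this
  have hlK : L / 10 ≤ Real.log ((F1 / m : ℕ) : ℝ) := by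
    have h1 := Real.log_le_log (by positivity) hK1
    rw [Real.log_div hy0.ne' (by norm_num)] at h1
    linarith
  have hK12 : F1 / m ≤ F2 / m := Nat.div_le_div_right hF
  have key := hC (F1 / m) (F2 / m) (L / 10) (fun k => hw a (m * k)) hK1' hK12 (by linarith) hlK
    (fun N hN => lsl_hw_anti ha (Nat.mul_pos hm (by omega)) (Nat.mul_le_mul_left _ (Nat.le_succ N)))
    (fun N => lsl_hw_nonneg a _)
  -- the square roots
  obtain ⟨G1, hG1⟩ : ∃ G1, G1 = √((F1 : ℝ) / a) := ⟨_, rfl⟩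
  obtain ⟨G2, hG2⟩ : ∃ G2, G2 = √((F2 : ℝ) / a) := ⟨_, rfl⟩
  obtain ⟨s, hs⟩ : ∃ s, s = √(m : ℝ) := ⟨_, rfl⟩
  have hG10 : 0 < G1 := by rw [hG1]; positivity
  have hs0 : 0 < s := by rw [hs]; positivity
  have hss : s * s = m := by rw [hs]; exact Real.mul_self_sqrt hm0.le
  have hG11 : G1 * G1 = F1 / a := by rw [hG1]; exact Real.mul_self_sqrt (by positivity)
  have hG22 : G2 * G2 = F2 / a := by rw [hG2]; exact Real.mul_self_sqrt (by positivity)
  have hlg0 : 0 < Real.log ((F1 : ℝ) / m) := by linarith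
  -- the weight
  have hwm : ∀ k : ℕ, hw a (m * k) = hw a k / s := by
    intro k
    unfold hw
    rw [hs, Nat.cast_mul, show (a : ℝ) * ((m : ℝ) * k) = m * (a * k) by ring, Real.sqrt_mul hm0.le]
    rw [div_div]
    congr 1
    ring
  have hsum : ∑ k ∈ Ioc (F1 / m) (F2 / m), hw a (m * k) ≤ (G2 - G1) / m + 1 / (a * G1) := by
    rw [sum_congr rfl fun k _ => hwm k, ← sum_div]
    have h1 := (lsl_hw_sum ha (F1 / m) (by omega) (F2 / m) hK12).1
    have h2 : √(((F2 / m : ℕ) : ℝ) / a) ≤ G2 / s := by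
      rw [Real.sqrt_le_left (by rw [hG2]; positivity), div_pow, sq, sq, hG22, hss]
      rw [div_div, mul_comm (a : ℝ) m, ← div_div]
      exact div_le_div_of_nonneg_right b3 ha0.le
    have h3 : G1 / s - s / (a * G1) ≤ √(((F1 / m : ℕ) : ℝ) / a) := by
      apply Real.le_sqrt_of_sq_le
      have e1 : (G1 / s - s / (a * G1)) ^ 2 = (G1 * G1) / (s * s) - 2 / a + (s * s) / (a ^ 2 * (G1 * G1)) := by
        field_simp
        ring
      rw [e1, hG11, hss]
      have e2 : (m : ℝ) / (a ^ 2 * (F1 / a)) = 1 / a * (1 / (F1 / m)) := by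
        field_simp
      have e3 : (F1 : ℝ) / a / m = F1 / m / a := by
        rw [div_div, div_div, mul_comm]
      rw [e2, e3]
      have h4 : 1 / ((F1 : ℝ) / m) ≤ 1 := by
        rw [div_le_one hy0]; linarith
      have h5 : 1 / (a : ℝ) * (1 / (F1 / m)) ≤ 1 / a * 1 := mul_le_mul_of_nonneg_left h4 (by positivity)
      have h6 : (F1 : ℝ) / m / a - 1 / a ≤ ((F1 / m : ℕ) : ℝ) / a := by
        rw [← sub_div]
        exact div_le_div_of_nonneg_right (by linarith) ha0.le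
      have h7 : 2 / (a : ℝ) = 1 / a + 1 / a := by ring
      linarith
    have h8 : (G2 / s - (G1 / s - s / (a * G1))) / s = (G2 - G1) / m + 1 / (a * G1) := by
      rw [← hss]
      field_simp
      ring
    rw [← h8]
    exact div_le_div_of_nonneg_right (by linarith) hs0.le
  have hmain : ∑ k ∈ Ioc (F1 / m) (F2 / m), hw a (m * k) / Real.log k ≤
      1 / Real.log ((F1 : ℝ) / m) * ((G2 - G1) / m + 1 / (a * G1)) := by
    calc ∑ k ∈ Ioc (F1 / m) (F2 / m), hw a (m * k) / Real.log k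
        ≤ ∑ k ∈ Ioc (F1 / m) (F2 / m), 1 / Real.log ((F1 : ℝ) / m) * hw a (m * k) := by
          refine sum_le_sum fun k hk => ?_
          rw [mem_Ioc] at hk
          have h1 : (F1 : ℝ) / m ≤ k := by
            have : ((F1 / m : ℕ) : ℝ) + 1 ≤ k := by exact_mod_cast hk.1
            linarith
          have h2 := Real.log_le_log hy0 h1
          rw [div_eq_mul_one_div, mul_comm]
          exact mul_le_mul_of_nonneg_right (one_div_le_one_div_of_le hlg0 h2) (lsl_hw_nonneg a _)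
      _ = 1 / Real.log ((F1 : ℝ) / m) * ∑ k ∈ Ioc (F1 / m) (F2 / m), hw a (m * k) := by rw [mul_sum]
      _ ≤ _ := mul_le_mul_of_nonneg_left hsum (by positivity)
  have herr : 2 * (C * ((F2 / m : ℕ) : ℝ) / (L / 10) ^ 4) * hw a (m * (F1 / m + 1)) ≤
      10000 * C * ((F2 : ℝ) / a) / (m * L ^ 4 * G1) := by
    have h1 : hw a (m * (F1 / m + 1)) ≤ hw a F1 := lsl_hw_anti ha hF1 (Nat.lt_mul_div_succ F1 hm).le
    have h2 : hw a F1 = 1 / (2 * (a * G1)) := by
      unfold hw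
      have : √((a : ℝ) * F1) = a * G1 := by
        rw [hG1, show (a : ℝ) * F1 = a ^ 2 * (F1 / a) by field_simp, Real.sqrt_mul (by positivity),
          Real.sqrt_sq ha0.le]
      rw [this]
    rw [h2] at h1
    calc 2 * (C * ((F2 / m : ℕ) : ℝ) / (L / 10) ^ 4) * hw a (m * (F1 / m + 1))
        ≤ 2 * (C * ((F2 : ℝ) / m) / (L / 10) ^ 4) * (1 / (2 * (a * G1))) := by
          refine mul_le_mul ?_ h1 (lsl_hw_nonneg a _) (by positivity)
          refine mul_le_mul_of_nonneg_left ?_ (by norm_num)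
          exact div_le_div_of_nonneg_right (mul_le_mul_of_nonneg_left b3 hC0) (by positivity)
      _ = _ := by
          field_simp
          ring
  have k1 := (abs_le.1 key).2
  rw [← hG1, ← hG2]
  linarith


/-- the function -/
noncomputable def Dfn (S : Finset ℕ) (κ : ℕ → ℝ) (N : ℕ) : ℝ :=
  ∑ m ∈ S, if m ∣ N then κ m * (pi0 (N / m) * (Real.log ((N / m : ℕ) : ℝ) / Real.log N)) else 0

lemma Ls_D_le (a b : ℤ) (x1 x2 : ℕ) (S : Finset ℕ) (κ : ℕ → ℝ) (hS : ∀ m ∈ S, 1 ≤ m) (hκ : ∀ m, 0 ≤ κ m)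
    (hF1 : 0 < Real.log (Fn a b x1)) (hF2 : ∀ m ∈ S, 0 ≤ Real.log ((Fn a b x2 : ℝ) / m)) :
    Ls a b x1 x2 (Dfn S κ) ≤ ∑ m ∈ S, κ m * (Real.log ((Fn a b x2 : ℝ) / m) / Real.log (Fn a b x1)) *
      ∑ k ∈ Ioc (Fn a b x1 / m) (Fn a b x2 / m), pi0 k * hw a (m * k) := by
  classical
  obtain ⟨F1, hF1e⟩ : ∃ F1, F1 = Fn a b x1 := ⟨_, rfl⟩
  obtain ⟨F2, hF2e⟩ : ∃ F2, F2 = Fn a b x2 := ⟨_, rfl⟩
  unfold Ls
  rw [← hF1e] at hF1 ⊢
  rw [← hF2e] at hF2 ⊢
  have hF1r : (1 : ℝ) ≤ F1 := by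
    by_contra hcon
    push Not at hcon
    have h1 : F1 = 0 := by
      have : F1 < 1 := by exact_mod_cast hcon
      omega
    rw [h1] at hF1
    simp at hF1
  have e1 : ∑ N ∈ Ioc F1 F2, Dfn S κ N * hw a N =
      ∑ m ∈ S, ∑ N ∈ (Ioc F1 F2).filter (fun N => m ∣ N),
        κ m * (pi0 (N / m) * (Real.log ((N / m : ℕ) : ℝ) / Real.log N)) * hw a N := by
    unfold Dfn
    simp_rw [sum_mul, sum_filter]
    rw [sum_comm]
    apply sum_congr rfl
    intro m _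
    apply sum_congr rfl
    intro N _
    split_ifs
    · rfl
    · rw [zero_mul]
  rw [e1]
  apply sum_le_sum
  intro m hm
  have hm0 : 0 < m := hS m hm
  have hm0r : (0 : ℝ) < m := by exact_mod_cast hm0
  rw [mul_sum]
  have hρ : 0 ≤ Real.log ((F2 : ℝ) / m) / Real.log F1 := div_nonneg (hF2 m hm) hF1.le
  calc ∑ N ∈ (Ioc F1 F2).filter (fun N => m ∣ N),
        κ m * (pi0 (N / m) * (Real.log ((N / m : ℕ) : ℝ) / Real.log N)) * hw a N
      ≤ ∑ N ∈ (Ioc F1 F2).filter (fun N => m ∣ N),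
        κ m * (Real.log ((F2 : ℝ) / m) / Real.log F1) * (pi0 (N / m) * hw a N) := by
        apply sum_le_sum
        intro N hN
        rw [mem_filter, mem_Ioc] at hN
        have hN0 : (0 : ℝ) < N := by exact_mod_cast (by omega : 0 < N)
        have g1 : Real.log F1 ≤ Real.log N := Real.log_le_log (by linarith) (by exact_mod_cast hN.1.1.le)
        have g2 : Real.log ((N / m : ℕ) : ℝ) ≤ Real.log ((F2 : ℝ) / m) := by
          obtain ⟨k, hk⟩ := hN.2
          have hk0 : 0 < k := by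
            rcases Nat.eq_zero_or_pos k with h | h
            · rw [h] at hk; omega
            · exact h
          rw [hk, Nat.mul_div_cancel_left _ hm0]
          apply Real.log_le_log (by exact_mod_cast hk0)
          rw [le_div_iff₀ hm0r]
          have : k * m ≤ F2 := by
            have := hN.1.2
            rw [hk] at this
            rw [mul_comm]
            exact this
          exact_mod_cast this
        have g3 : Real.log ((N / m : ℕ) : ℝ) / Real.log N ≤ Real.log ((F2 : ℝ) / m) / Real.log F1 := by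
          have g4 : 0 < Real.log N := by linarith
          exact div_le_div₀ (hF2 m hm) g2 hF1 g1
        have g5 := (Pt.pi0_le (N / m)).1
        have g6 := lsl_hw_nonneg a N
        calc κ m * (pi0 (N / m) * (Real.log ((N / m : ℕ) : ℝ) / Real.log N)) * hw a N
            = (κ m * (pi0 (N / m) * hw a N)) * (Real.log ((N / m : ℕ) : ℝ) / Real.log N) := by ring
          _ ≤ (κ m * (pi0 (N / m) * hw a N)) * (Real.log ((F2 : ℝ) / m) / Real.log F1) :=
              mul_le_mul_of_nonneg_left g3 (mul_nonneg (hκ m) (mul_nonneg g5 g6))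
          _ = _ := by ring
    _ = ∑ k ∈ Ioc (F1 / m) (F2 / m), κ m * (Real.log ((F2 : ℝ) / m) / Real.log F1) * (pi0 k * hw a (m * k)) := by
        refine sum_nbij' (fun N => N / m) (fun k => m * k) ?_ ?_ ?_ ?_ ?_
        · intro N hN
          rw [mem_filter, mem_Ioc] at hN
          obtain ⟨⟨h1, h2⟩, k, rfl⟩ := hN
          rw [Nat.mul_div_cancel_left _ hm0, mem_Ioc]
          rw [mul_comm] at h1 h2
          exact ⟨(Nat.div_lt_iff_lt_mul hm0).2 h1, (Nat.le_div_iff_mul_le hm0).2 h2⟩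
        · intro k hk
          rw [mem_Ioc] at hk
          rw [mem_filter, mem_Ioc]
          have h1 := (Nat.div_lt_iff_lt_mul hm0).1 hk.1
          have h2 := (Nat.le_div_iff_mul_le hm0).1 hk.2
          rw [mul_comm] at h1 h2
          exact ⟨⟨h1, h2⟩, Dvd.intro _ rfl⟩
        · intro N hN
          rw [mem_filter] at hN
          exact Nat.mul_div_cancel' hN.2
        · intro k _
          exact Nat.mul_div_cancel_left _ hm0
        · intro N hN
          rw [mem_filter] at hN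
          rw [Nat.mul_div_cancel' hN.2]

/-- the final inequality between real numbers -/
lemma fin_core {X X1 X2 L B' R C η B Sκ nS G1 G2 a X7 : ℝ} (hX : 0 < X) (hL : 1 ≤ L) (hR : 1 ≤ R) (hη : 0 < η)
    (hη1 : η ≤ 1) (hC : 0 ≤ C) (hB' : 0 ≤ B') (hBX : 8 * B' ≤ η * X) (hX12 : X1 ≤ X2) (hX12' : X2 - X1 ≤ X)
    (hSκ0 : 0 ≤ Sκ) (hSκ : Sκ ≤ B) (hB1 : B ≤ 1)
    (hnS0 : 0 ≤ nS) (hnS : nS ≤ 10 * X7) (hX7 : 80 * R * X7 ≤ η * (X * X)) (hLC : 960000 * (C * R) ≤ η * L)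
    (ha : 1 ≤ a) (hG1 : X / (2 * R) ≤ G1) (hG2 : 0 ≤ G2) (hG2' : G2 ≤ 2 * X) (hG12 : G2 - G1 ≤ X2 - X1 + 2 * B') :
    (1 + η / 2) / (2 * L) * ((G2 - G1) * Sκ + nS * (1 / (a * G1))) + 30000 * C * G2 ^ 2 / (L ^ 4 * G1) * Sκ ≤
      B / 2 * ((X2 - X1) / L) + η * (X / L) := by
  have hL0 : 0 < L := by linarith
  have hXR : 0 < X / (2 * R) := by positivity
  have hG10 : 0 < G1 := by linarith
  have hB0 : 0 ≤ B := hSκ0.trans hSκ
  have k0 : 1 / G1 ≤ 2 * R / X := by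
    rw [div_le_div_iff₀ hG10 hX]
    rw [div_le_iff₀ (by positivity)] at hG1
    linarith
  have h2 : 1 / (a * G1) ≤ 2 * R / X := by
    refine le_trans ?_ k0
    apply one_div_le_one_div_of_le hG10
    nlinarith
  have h1 : (G2 - G1) * Sκ ≤ (X2 - X1) * B + 2 * B' := by
    calc (G2 - G1) * Sκ ≤ (X2 - X1 + 2 * B') * Sκ := mul_le_mul_of_nonneg_right hG12 hSκ0
      _ ≤ (X2 - X1 + 2 * B') * B := mul_le_mul_of_nonneg_left hSκ (by linarith)
      _ = (X2 - X1) * B + 2 * B' * B := by ring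
      _ ≤ (X2 - X1) * B + 2 * B' * 1 := by
          have : 2 * B' * B ≤ 2 * B' * 1 := mul_le_mul_of_nonneg_left hB1 (by linarith)
          linarith
      _ = _ := by ring
  have h3 : nS * (1 / (a * G1)) ≤ η / 4 * X := by
    calc nS * (1 / (a * G1)) ≤ (10 * X7) * (2 * R / X) := mul_le_mul hnS h2 (by positivity) (by linarith)
      _ = (80 * R * X7) / (4 * X) := by field_simp; ring
      _ ≤ (η * (X * X)) / (4 * X) := div_le_div_of_nonneg_right hX7 (by positivity)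
      _ = η / 4 * X := by field_simp
  have h4 : 30000 * C * G2 ^ 2 / (L ^ 4 * G1) * Sκ ≤ η / 4 * (X / L) := by
    have k1 : G2 ^ 2 ≤ (2 * X) ^ 2 := pow_le_pow_left₀ hG2 hG2' 2
    have k2 : Sκ ≤ 1 := hSκ.trans hB1
    calc 30000 * C * G2 ^ 2 / (L ^ 4 * G1) * Sκ = 30000 * C / L ^ 4 * G2 ^ 2 * (1 / G1) * Sκ := by
          field_simp
      _ ≤ 30000 * C / L ^ 4 * (2 * X) ^ 2 * (2 * R / X) * 1 := by gcongr
      _ = 960000 * (C * R) / 4 * X / L ^ 4 := by field_simp; ring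
      _ ≤ (η * L) / 4 * X / L ^ 4 := by gcongr
      _ = η / 4 * (X / L) * (1 / L ^ 2) := by field_simp
      _ ≤ η / 4 * (X / L) * 1 := by
          apply mul_le_mul_of_nonneg_left _ (by positivity)
          rw [div_le_one (by positivity)]
          exact one_le_pow₀ hL
      _ = _ := by ring
  have h5 : (1 + η / 2) / (2 * L) * ((G2 - G1) * Sκ + nS * (1 / (a * G1))) ≤
      (1 + η / 2) / (2 * L) * ((X2 - X1) * B + 2 * B' + η / 4 * X) :=
    mul_le_mul_of_nonneg_left (by linarith) (by positivity)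
  have e1 : (1 + η / 2) / (2 * L) * ((X2 - X1) * B + 2 * B' + η / 4 * X) =
      (B / 2 * (X2 - X1) + (η / 4 * ((X2 - X1) * B) + (1 + η / 2) / 2 * (2 * B' + η / 4 * X))) / L := by
    field_simp
    ring
  have h6 : (X2 - X1) * B ≤ X := by nlinarith
  have h7 : η / 4 * ((X2 - X1) * B) ≤ η / 4 * X := mul_le_mul_of_nonneg_left h6 (by positivity)
  have h8 : (1 + η / 2) / 2 * (2 * B' + η / 4 * X) ≤ 1 * (2 * B' + η / 4 * X) :=
    mul_le_mul_of_nonneg_right (by linarith) (by positivity)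
  have h9 : (B / 2 * (X2 - X1) + (η / 4 * ((X2 - X1) * B) + (1 + η / 2) / 2 * (2 * B' + η / 4 * X))) / L ≤
      (B / 2 * (X2 - X1) + 3 * η / 4 * X) / L := by
    apply div_le_div_of_nonneg_right _ hL0.le
    linarith
  have e2 : (B / 2 * (X2 - X1) + 3 * η / 4 * X) / L + η / 4 * (X / L) = B / 2 * ((X2 - X1) / L) + η * (X / L) := by
    field_simp
    ring
  rw [← e2]
  linarith

/-- **the weighted number of the products `m p`** -/
theorem core (a : ℤ) (ha : 0 < a) (b : ℤ) (R : ℕ) (η : ℝ) (hη : 0 < η) (hη1 : η ≤ 1) : ∀ᶠ x : ℕ in atTop, ∀ x1 x2 : ℕ,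
    x1 < x2 → x2 ≤ x → x ≤ R * x1 → ∀ (S : Finset ℕ) (κ : ℕ → ℝ) (B : ℝ),
    (∀ m ∈ S, 1 ≤ m ∧ Real.log m ≤ 7 / 4 * Real.log x) → (∀ m, 0 ≤ κ m ∧ κ m ≤ 10) → ∑ m ∈ S, κ m / m ≤ B → B ≤ 1 →
    Ls a b x1 x2 (Dfn S κ) ≤ B / 2 * (((x2 : ℝ) - x1) / Real.log x) + η * (x / Real.log x) := by
  obtain ⟨C, hC0, hC⟩ := QS2.prime_sum 4
  have hl : Tendsto (fun x : ℕ => Real.log x) atTop atTop :=
    Real.tendsto_log_atTop.comp tendsto_natCast_atTop_atTop
  have hc : Tendsto (fun x : ℕ => (x : ℝ)) atTop atTop := tendsto_natCast_atTop_atTop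
  have hq : Tendsto (fun x : ℕ => (x : ℝ) ^ (1 / 4 : ℝ)) atTop atTop :=
    (tendsto_rpow_atTop (by norm_num)).comp hc
  filter_upwards [hl.eventually_ge_atTop 50, hc.eventually_ge_atTop (8 * |(b : ℝ)| / η),
    hq.eventually_ge_atTop (80 * R / η), hl.eventually_ge_atTop (960000 * (C * R) / η),
    hc.eventually_ge_atTop (2 * R * (|(b : ℝ)| + 1)), hl.eventually_ge_atTop (40 * Real.log (2 * R)),
    hl.eventually_ge_atTop ((10 * Real.log (4 * R) + 2 * Real.log (2 * R)) / (η / 2)),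
    hl.eventually_ge_atTop (Real.log (4 * a)), eventually_ge_atTop 3] with x hL hb hx7 hLC hbR hLR hLR2 hLa hx3
  intro x1 x2 hx12 hx2 hxR S κ B hS hκ hsum hB1
  have ha1 : (1 : ℝ) ≤ a := by exact_mod_cast ha
  have ha0 : (0 : ℝ) < a := by linarith
  have hb0 := abs_nonneg (b : ℝ)
  have hX : (0 : ℝ) < x := by
    have : 0 < x := by omega
    exact_mod_cast this
  have hR1 : (1 : ℝ) ≤ R := by
    rcases Nat.eq_zero_or_pos R with h | h
    · rw [h, zero_mul] at hxR; omega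
    · exact_mod_cast h
  have hXR : (x : ℝ) ≤ R * x1 := by exact_mod_cast hxR
  have hx12' : (x1 : ℝ) < x2 := by exact_mod_cast hx12
  have hx2' : (x2 : ℝ) ≤ x := by exact_mod_cast hx2
  have hx1b : 2 * (|(b : ℝ)| + 1) ≤ x1 := by
    have : (R : ℝ) * (2 * (|(b : ℝ)| + 1)) ≤ R * x1 := by linarith
    exact le_of_mul_le_mul_left this (by linarith)
  have hx1R : (x : ℝ) / (2 * R) ≤ x1 / 2 := by
    rw [div_le_div_iff₀ (by positivity) (by norm_num)]
    linarith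
  have hn1 : |b| ≤ (x1 : ℤ) := by
    have : |(b : ℝ)| ≤ x1 := by linarith
    exact_mod_cast this
  have hn2 : |b| ≤ (x2 : ℤ) := hn1.trans (by exact_mod_cast hx12.le)
  have hx1p : 1 ≤ x1 := by
    have : (1 : ℝ) ≤ x1 := by linarith
    exact_mod_cast this
  obtain ⟨F1, hF1e⟩ : ∃ F1, F1 = Fn a b x1 := ⟨_, rfl⟩
  obtain ⟨F2, hF2e⟩ : ∃ F2, F2 = Fn a b x2 := ⟨_, rfl⟩
  have g1 := lsl_sqrt ha b hn1 hx1p
  have g2 := lsl_sqrt ha b hn2 (by omega)
  rw [← hF1e] at g1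
  rw [← hF2e] at g2
  obtain ⟨g1l, g1u⟩ := abs_le.1 g1
  obtain ⟨g2l, g2u⟩ := abs_le.1 g2
  have hG1 : (x : ℝ) / (2 * R) ≤ √((F1 : ℝ) / a) := by linarith
  have hG2 : √((F2 : ℝ) / a) ≤ 2 * x := by linarith
  have hG12 : √((F2 : ℝ) / a) - √((F1 : ℝ) / a) ≤ x2 - x1 + 2 * |(b : ℝ)| := by linarith
  have hG10 : 0 < √((F1 : ℝ) / a) := lt_of_lt_of_le (by positivity) hG1
  have hF1a : 0 < (F1 : ℝ) / a := Real.sqrt_pos.1 hG10
  have hF1r : (0 : ℝ) < F1 := by
    have := mul_pos hF1a ha0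
    rwa [div_mul_cancel₀ _ ha0.ne'] at this
  have hF1 : 1 ≤ F1 := by exact_mod_cast hF1r
  have hG20 : 0 < √((F2 : ℝ) / a) := by linarith
  have hF2a : 0 < (F2 : ℝ) / a := Real.sqrt_pos.1 hG20
  have hF2r : (0 : ℝ) < F2 := by
    have := mul_pos hF2a ha0
    rwa [div_mul_cancel₀ _ ha0.ne'] at this
  have hF12r : (F1 : ℝ) ≤ F2 := by
    have h1 : √((F1 : ℝ) / a) ≤ √((F2 : ℝ) / a) := by
      rw [hF1e, hF2e, lsl_Fn_cast ha b hn1, lsl_Fn_cast ha b hn2]
      apply Real.sqrt_le_sqrt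
      apply div_le_div_of_nonneg_right _ ha0.le
      have hb2 := neg_abs_le (b : ℝ)
      nlinarith [mul_nonneg (by linarith : (0 : ℝ) ≤ (x2 : ℝ) - x1) (by nlinarith : (0 : ℝ) ≤ a * ((x2 : ℝ) + x1) + b)]
    have h2 := mul_self_le_mul_self hG10.le h1
    rw [Real.mul_self_sqrt hF1a.le, Real.mul_self_sqrt hF2a.le] at h2
    exact (div_le_div_iff_of_pos_right ha0).1 h2
  have hF12 : F1 ≤ F2 := by exact_mod_cast hF12r
  obtain ⟨L, hLe⟩ : ∃ L : ℝ, L = Real.log x := ⟨_, rfl⟩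
  rw [← hLe] at hL hLC hLR hLR2 hLa ⊢
  have hL0 : 0 < L := by linarith
  have hl2R : 0 ≤ Real.log (2 * R) := Real.log_nonneg (by linarith)
  have hl4R : 0 ≤ Real.log (4 * R) := Real.log_nonneg (by linarith)
  -- the logarithms
  have hf1 : 2 * L - 2 * Real.log (2 * R) ≤ Real.log F1 := by
    have h2 := mul_self_le_mul_self (by positivity) hG1
    rw [Real.mul_self_sqrt hF1a.le] at h2
    have h3 : (F1 : ℝ) / a ≤ F1 := div_le_self hF1r.le ha1
    have h4 := Real.log_le_log (by positivity) (h2.trans h3)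
    rw [Real.log_mul (by positivity) (by positivity), Real.log_div (by positivity) (by positivity), ← hLe] at h4
    linarith
  have hf2 : Real.log F2 ≤ 3 * L := by
    have h1 : (F2 : ℝ) ≤ 4 * a * x ^ 2 := by
      have h2 := mul_self_le_mul_self hG20.le hG2
      rw [Real.mul_self_sqrt hF2a.le, div_le_iff₀ ha0] at h2
      linarith
    have h2 := Real.log_le_log hF2r h1
    rw [Real.log_mul (by positivity) (by positivity), Real.log_pow, ← hLe] at h2
    push_cast at h2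
    linarith
  have hf12 : Real.log F2 ≤ Real.log F1 + 2 * Real.log (4 * R) := by
    have h1 : (F2 : ℝ) / a ≤ (4 * R) * (4 * R) * (F1 / a) := by
      have h2 : √((F2 : ℝ) / a) ≤ 4 * R * √((F1 : ℝ) / a) := by
        rw [div_le_iff₀ (by positivity)] at hG1
        linarith
      have h3 := mul_self_le_mul_self hG20.le h2
      rw [Real.mul_self_sqrt hF2a.le] at h3
      calc (F2 : ℝ) / a ≤ 4 * R * √((F1 : ℝ) / a) * (4 * R * √((F1 : ℝ) / a)) := h3
        _ = (4 * R) * (4 * R) * (√((F1 : ℝ) / a) * √((F1 : ℝ) / a)) := by ring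
        _ = _ := by rw [Real.mul_self_sqrt hF1a.le]
    have h2 : (F2 : ℝ) ≤ (4 * R) * (4 * R) * F1 := by
      rw [div_le_iff₀ ha0] at h1
      calc (F2 : ℝ) ≤ (4 * R) * (4 * R) * (F1 / a) * a := h1
        _ = _ := by field_simp
    have h3 := Real.log_le_log hF2r h2
    rw [Real.log_mul (by positivity) (by positivity), Real.log_mul (by positivity) (by positivity)] at h3
    linarith
  have hlF1 : L ≤ Real.log F1 := by linarith
  -- the logarithms for one `m`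
  have hm : ∀ m ∈ S, 0 < m ∧ 1 / 5 * L ≤ Real.log ((F1 : ℝ) / m) ∧
      Real.log ((F2 : ℝ) / m) ≤ Real.log ((F1 : ℝ) / m) + 2 * Real.log (4 * R) ∧ Real.log ((F2 : ℝ) / m) ≤ 3 * L := by
    intro m hm
    obtain ⟨h1, h2⟩ := hS m hm
    rw [← hLe] at h2
    have hm0 : (0 : ℝ) < m := by exact_mod_cast (by omega : 0 < m)
    have hlm : 0 ≤ Real.log m := Real.log_natCast_nonneg m
    rw [Real.log_div hF1r.ne' hm0.ne', Real.log_div hF2r.ne' hm0.ne']
    refine ⟨by omega, by linarith, by linarith, by linarith⟩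
  have hD := Ls_D_le a b x1 x2 S κ (fun m hm' => (hS m hm').1) (fun m => (hκ m).1) (by rw [← hF1e]; linarith)
    (fun m hm' => by
      rw [← hF2e]
      obtain ⟨m0, m1, m2, m3⟩ := hm m hm'
      have hm0 : (0 : ℝ) < m := by exact_mod_cast m0
      have : Real.log ((F1 : ℝ) / m) ≤ Real.log ((F2 : ℝ) / m) :=
        Real.log_le_log (by positivity) (div_le_div_of_nonneg_right hF12r hm0.le)
      linarith)
  rw [← hF1e, ← hF2e] at hD
  refine hD.trans ?_
  obtain ⟨G1, hG1e⟩ : ∃ G1, G1 = √((F1 : ℝ) / a) := ⟨_, rfl⟩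
  obtain ⟨G2, hG2e⟩ : ∃ G2, G2 = √((F2 : ℝ) / a) := ⟨_, rfl⟩
  have hG22 : (F2 : ℝ) / a = G2 ^ 2 := by rw [hG2e, Real.sq_sqrt hF2a.le]
  have hG12m : G1 ≤ G2 := by
    rw [hG1e, hG2e]
    exact Real.sqrt_le_sqrt (div_le_div_of_nonneg_right hF12r ha0.le)
  rw [← hG1e] at hG1 hG12 hG10
  rw [← hG2e] at hG2 hG12 hG20
  have hstep : ∀ m ∈ S, κ m * (Real.log ((F2 : ℝ) / m) / Real.log F1) *
      ∑ k ∈ Ioc (F1 / m) (F2 / m), pi0 k * hw a (m * k) ≤
      (1 + η / 2) / (2 * L) * ((G2 - G1) * (κ m / m) + κ m * (1 / (a * G1))) +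
        30000 * C * G2 ^ 2 / (L ^ 4 * G1) * (κ m / m) := by
    intro m hm'
    obtain ⟨m0, m1, m2, m3⟩ := hm m hm'
    have hm0 : (0 : ℝ) < m := by exact_mod_cast m0
    have hin := innerq ha hC0 hC m0 hF1 hF12 hL m1
    rw [← hG1e, ← hG2e, hG22] at hin
    have hlg0 : 0 < Real.log ((F1 : ℝ) / m) := by linarith
    have hlF10 : 0 < Real.log F1 := by linarith
    have hlF2m : 0 ≤ Real.log ((F2 : ℝ) / m) := by
      have : Real.log ((F1 : ℝ) / m) ≤ Real.log ((F2 : ℝ) / m) :=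
        Real.log_le_log (by positivity) (div_le_div_of_nonneg_right hF12r hm0.le)
      linarith
    have hρ0 : 0 ≤ Real.log ((F2 : ℝ) / m) / Real.log F1 := div_nonneg hlF2m hlF10.le
    have hρ3 : Real.log ((F2 : ℝ) / m) / Real.log F1 ≤ 3 := by
      rw [div_le_iff₀ hlF10]
      linarith
    have hρ : Real.log ((F2 : ℝ) / m) / Real.log F1 * (1 / Real.log ((F1 : ℝ) / m)) ≤ (1 + η / 2) / (2 * L) := by
      rw [div_mul_div_comm, mul_one, div_le_div_iff₀ (by positivity) (by positivity)]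
      obtain ⟨l, hl⟩ : ∃ l, l = Real.log ((F1 : ℝ) / m) := ⟨_, rfl⟩
      rw [← hl] at m1 m2 hlg0 ⊢
      rw [div_le_iff₀ (by positivity)] at hLR2
      have q1 : (1 + η / 2) * ((2 * L - 2 * Real.log (2 * R)) * l) ≤ (1 + η / 2) * (Real.log F1 * l) := by gcongr
      have q2 : Real.log ((F2 : ℝ) / m) * (2 * L) ≤ (l + 2 * Real.log (4 * R)) * (2 * L) := by gcongr
      have q3 : 4 * Real.log (4 * R) * L ≤ 4 * Real.log (4 * R) * (5 * l) := by
        apply mul_le_mul_of_nonneg_left (by linarith) (by positivity)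
      have q4 : (20 * Real.log (4 * R) + 4 * Real.log (2 * R)) * l ≤ (L * η) * l := by
        apply mul_le_mul_of_nonneg_right (by linarith) hlg0.le
      have q5 : η * (Real.log (2 * R) * l) ≤ 1 * (Real.log (2 * R) * l) := mul_le_mul_of_nonneg_right hη1 (by positivity)
      nlinarith
    have hA : 0 ≤ (G2 - G1) / m + 1 / (a * G1) := by
      have : 0 ≤ G2 - G1 := by linarith
      positivity
    have hE : 0 ≤ 10000 * C * G2 ^ 2 / (m * L ^ 4 * G1) := by positivity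
    calc κ m * (Real.log ((F2 : ℝ) / m) / Real.log F1) * ∑ k ∈ Ioc (F1 / m) (F2 / m), pi0 k * hw a (m * k)
        ≤ κ m * (Real.log ((F2 : ℝ) / m) / Real.log F1) * (1 / Real.log ((F1 : ℝ) / m) * ((G2 - G1) / m + 1 / (a * G1)) +
          10000 * C * G2 ^ 2 / (m * L ^ 4 * G1)) := mul_le_mul_of_nonneg_left hin (mul_nonneg (hκ m).1 hρ0)
      _ = κ m * ((Real.log ((F2 : ℝ) / m) / Real.log F1 * (1 / Real.log ((F1 : ℝ) / m))) * ((G2 - G1) / m + 1 / (a * G1))) +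
          κ m * (Real.log ((F2 : ℝ) / m) / Real.log F1 * (10000 * C * G2 ^ 2 / (m * L ^ 4 * G1))) := by ring
      _ ≤ κ m * ((1 + η / 2) / (2 * L) * ((G2 - G1) / m + 1 / (a * G1))) +
          κ m * (3 * (10000 * C * G2 ^ 2 / (m * L ^ 4 * G1))) := by
          have q1 := mul_le_mul_of_nonneg_left (mul_le_mul_of_nonneg_right hρ hA) (hκ m).1
          have q2 := mul_le_mul_of_nonneg_left (mul_le_mul_of_nonneg_right hρ3 hE) (hκ m).1
          linarith
      _ = _ := by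
          field_simp
          ring
  refine (sum_le_sum hstep).trans ?_
  rw [sum_add_distrib, ← mul_sum, ← mul_sum, sum_add_distrib, ← mul_sum, ← sum_mul]
  have hcard : ∑ m ∈ S, κ m ≤ 10 * (x : ℝ) ^ (7 / 4 : ℝ) := by
    have h1 : S ⊆ Icc 1 ⌊(x : ℝ) ^ (7 / 4 : ℝ)⌋₊ := by
      intro m hm'
      obtain ⟨q1, q2⟩ := hS m hm'
      rw [mem_Icc]
      refine ⟨q1, ?_⟩
      rw [Nat.le_floor_iff (by positivity), ← Real.log_le_log_iff (by exact_mod_cast (by omega : 0 < m)) (by positivity),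
        Real.log_rpow hX]
      exact q2
    have h2 := card_le_card h1
    rw [Nat.card_Icc] at h2
    have h3 : (#S : ℝ) ≤ (x : ℝ) ^ (7 / 4 : ℝ) := by
      have : (#S : ℝ) ≤ ⌊(x : ℝ) ^ (7 / 4 : ℝ)⌋₊ := by exact_mod_cast (by omega : #S ≤ ⌊(x : ℝ) ^ (7 / 4 : ℝ)⌋₊)
      exact this.trans (Nat.floor_le (by positivity))
    calc ∑ m ∈ S, κ m ≤ ∑ _m ∈ S, (10 : ℝ) := sum_le_sum fun m _ => (hκ m).2
      _ = #S * 10 := by rw [sum_const, nsmul_eq_mul]
      _ ≤ _ := by linarith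
  have h7 : 80 * R * (x : ℝ) ^ (7 / 4 : ℝ) ≤ η * ((x : ℝ) * x) := by
    rw [div_le_iff₀ hη] at hx7
    have e : (x : ℝ) * x = (x : ℝ) ^ (1 / 4 : ℝ) * (x : ℝ) ^ (7 / 4 : ℝ) := by
      rw [← Real.rpow_add hX]
      norm_num
      ring
    rw [e]
    calc 80 * R * (x : ℝ) ^ (7 / 4 : ℝ) ≤ ((x : ℝ) ^ (1 / 4 : ℝ) * η) * (x : ℝ) ^ (7 / 4 : ℝ) :=
          mul_le_mul_of_nonneg_right hx7 (by positivity)
      _ = _ := by ring
  refine fin_core (R := R) (B' := |(b : ℝ)|) (X7 := (x : ℝ) ^ (7 / 4 : ℝ)) hX (by linarith) hR1 hη hη1 hC0 hb0 ?_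
    hx12'.le ?_ (sum_nonneg fun m _ => div_nonneg (hκ m).1 (Nat.cast_nonneg _)) hsum hB1 (sum_nonneg fun m _ => (hκ m).1)
    hcard h7 ?_ ha1 hG1 hG20.le hG2 hG12
  · rw [div_le_iff₀ hη] at hb
    linarith
  · have : (0 : ℝ) ≤ x1 := Nat.cast_nonneg _
    linarith
  · rw [div_le_iff₀ hη] at hLC
    linarith

end Cst

end Pool.Agent.W2helper63.TA
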