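import Mathlib
import Pool.Agent.W2helper63.TA.Cst3
import Pool.Agent.W2helper63.TA.Def

/-!
The loss of the new sieve is at most `3/4` of the number of the primes (helper63).
-/

set_option autoImplicit false

namespace Pool.Agent.W2helper63.TA

open Finset Filter Topology
open Pool.Agent.N792

/-- the bound for the loss -/
def X4q (a b : ℤ) (R : ℕ) : Prop := ∀ η : ℝ, 0 < η → ∃ δ : ℝ, 0 < δ ∧ ∃ x0 : ℕ, ∀ x : ℕ, x0 ≤ x → ∀ x1 x2 Q U V : ℕ,
    x1 < x2 → x2 ≤ x → x ≤ R * x1 → (x : ℝ) ^ (1 / 3 : ℝ) ≤ Q → (U : ℝ) ≤ (x : ℝ) ^ (5 / 6 : ℝ) →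
    (V : ℝ) ≤ (x : ℝ) ^ (5 / 6 + δ) →
    Ls a b x1 x2 (Mj Q U V) ≤ 3 / 8 * (((x2 : ℝ) - x1) / Real.log x) + η * (x / Real.log x)

namespace Cst

/-- the products of two primes `≤ x^(5/6+1/4000)` -/
def cA (x m : ℕ) : Prop := Squarefree m ∧ #m.primeFactors = 2 ∧
  (∀ p ∈ m.primeFactors, 1 / 3 * Real.log x < Real.log p ∧ Real.log p ≤ (5 / 6 + 1 / 4000) * Real.log x) ∧
  (7 / 6 - 1 / 4000) * Real.log x ≤ Real.log m

/-- the products `≤ x^s` of `k` primes -/
def cK (x k : ℕ) (s : ℝ) (m : ℕ) : Prop := Squarefree m ∧ #m.primeFactors = k ∧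
  (∀ p ∈ m.primeFactors, 1 / 3 * Real.log x < Real.log p) ∧ Real.log m ≤ s * Real.log x

open Classical in
/-- the weights -/
noncomputable def kap (x m : ℕ) : ℝ := 2 * (if cA x m then 1 else 0) + 343 / 200 * (if cK x 2 (5 / 6) m then 1 else 0) +
  3 * (if cK x 3 (5 / 3 + 1 / 20000) m then 1 else 0) + 4 * (if cK x 4 (5 / 3 + 1 / 20000) m then 1 else 0)

/-- the range of `m` -/
noncomputable def Sx (x : ℕ) : Finset ℕ := (Icc 1 (x ^ 2)).filter (fun m => Real.log m ≤ 7 / 4 * Real.log x)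

open Classical in
/-- the function of one class -/
noncomputable def Dp (S : Finset ℕ) (P : ℕ → Prop) (N : ℕ) : ℝ :=
  ∑ m ∈ S, if m ∣ N then (if P m then (1 : ℝ) else 0) * (pi0 (N / m) * (Real.log ((N / m : ℕ) : ℝ) / Real.log N)) else 0

lemma mem_Sx {x m : ℕ} (hx : 2 ≤ x) (h1 : 1 ≤ m) (h2 : Real.log m ≤ 7 / 4 * Real.log x) : m ∈ Sx x := by
  unfold Sx
  rw [mem_filter, mem_Icc]
  refine ⟨⟨h1, ?_⟩, h2⟩
  have hx0 : (0 : ℝ) < x := by exact_mod_cast (by omega : 0 < x)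
  have hL : 0 < Real.log x := Real.log_pos (by exact_mod_cast (by omega : 1 < x))
  have hm0 : (0 : ℝ) < m := by exact_mod_cast h1
  have h3 : Real.log m ≤ Real.log ((x : ℝ) ^ 2) := by
    rw [Real.log_pow]
    push_cast
    linarith
  have h4 : (m : ℝ) ≤ (x : ℝ) ^ 2 := (Real.log_le_log_iff hm0 (by positivity)).1 h3
  exact_mod_cast h4

lemma log_sqf {N : ℕ} (h : Squarefree N) : ∑ p ∈ N.primeFactors, Real.log p = Real.log N := by
  conv_rhs => rw [← Nat.prod_primeFactors_of_squarefree h]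
  rw [Nat.cast_prod, Real.log_prod]
  intro p hp
  exact_mod_cast (Nat.prime_of_mem_primeFactors hp).ne_zero

lemma wl_sum {x m k : ℕ} {s t W : ℝ} (hx : 2 ≤ x) (ht : 0 < t) (h : cK x k s m)
    (hW : k * (Real.log (3 * t) - 1) + s / t ≤ W) : ∑ p ∈ m.primeFactors, wl x p ≤ W := by
  obtain ⟨h1, h2, h3, h4⟩ := h
  have hL : 0 < Real.log x := Real.log_pos (by exact_mod_cast (by omega : 1 < x))
  have e : ∀ p ∈ m.primeFactors, wl x p ≤ (Real.log (3 * t) - 1) + Real.log p * (1 / (t * Real.log x)) := by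
    intro p hp
    have hp0 : 0 < Real.log p := by
      have := h3 p hp
      linarith
    unfold wl
    have e1 : 3 * Real.log p / Real.log x = (3 * t) * (Real.log p / (t * Real.log x)) := by
      field_simp
    rw [e1, Real.log_mul (by positivity) (by positivity)]
    have := Real.log_le_sub_one_of_pos (show 0 < Real.log p / (t * Real.log x) by positivity)
    rw [mul_one_div]
    linarith
  refine (sum_le_sum e).trans ?_
  rw [sum_add_distrib, sum_const, h2, nsmul_eq_mul, ← sum_mul, log_sqf h1]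
  have : Real.log m * (1 / (t * Real.log x)) ≤ s / t := by
    rw [mul_one_div, div_le_div_iff₀ (by positivity) ht]
    calc Real.log m * t ≤ s * Real.log x * t := mul_le_mul_of_nonneg_right h4 ht.le
      _ = _ := by ring
  linarith

open Classical in
lemma sum_cK (k : ℕ) (s t W ρ : ℝ) (ht : 0 < t) (hW0 : 0 ≤ W) (hW : k * (Real.log (3 * t) - 1) + s / t ≤ W)
    (hρ : 0 < ρ) : ∀ᶠ x : ℕ in atTop, ∀ S ⊆ Icc 1 (x ^ 2),
    ∑ m ∈ S, (if cK x k s m then (1 : ℝ) else 0) / m ≤ (1 + ρ) * ((W + ρ) ^ k / (k.factorial : ℝ) ^ 2) := by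
  filter_upwards [GG_le k (W + 1) (by linarith) ρ hρ, eventually_ge_atTop 2] with x h hx S hS
  refine le_trans ?_ (h W hW0 (by linarith))
  unfold GG
  have e1 : ∀ m ∈ S, (if cK x k s m then (1 : ℝ) else 0) / m = if cK x k s m then (1 : ℝ) / m else 0 := by
    intro m _
    split_ifs
    · rfl
    · simp
  rw [sum_congr rfl e1, ← sum_filter]
  refine sum_le_sum_of_subset_of_nonneg ?_ fun m _ _ => by positivity
  intro m hm
  rw [mem_filter] at hm
  unfold SS
  rw [mem_filter]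
  obtain ⟨g1, g2, g3, g4⟩ := hm.2
  refine ⟨hS hm.1, g1, g2, ?_, wl_sum hx ht hm.2 hW⟩
  intro p hp
  have hx0 : (0 : ℝ) < x := by exact_mod_cast (by omega : 0 < x)
  have hp0 : (0 : ℝ) < p := by exact_mod_cast (Nat.prime_of_mem_primeFactors hp).pos
  rw [← Real.log_lt_log_iff (by positivity) hp0, Real.log_rpow hx0]
  exact g3 p hp

lemma log54 : Real.log (5 / 4) ≤ 9 / 40 := by
  have := log_le_half (show (1 : ℝ) ≤ 5 / 4 by norm_num)
  norm_num at this ⊢
  linarith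

lemma log53 : Real.log (5 / 3) ≤ 31 / 60 := by
  have h1 := log_le_half (show (1 : ℝ) ≤ 5 / 4 by norm_num)
  have h2 := log_le_half (show (1 : ℝ) ≤ 4 / 3 by norm_num)
  have e : (5 / 3 : ℝ) = 5 / 4 * (4 / 3) := by norm_num
  rw [e, Real.log_mul (by norm_num) (by norm_num)]
  norm_num at h1 h2 ⊢
  linarith

lemma kap_bd (x m : ℕ) : 0 ≤ kap x m ∧ kap x m ≤ 10 := by
  unfold kap
  by_cases h1 : cK x 3 (5 / 3 + 1 / 20000) m
  · have h2 : ¬ cK x 4 (5 / 3 + 1 / 20000) m := by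
      intro h
      have e1 := h1.2.1
      have e2 := h.2.1
      omega
    rw [if_pos h1, if_neg h2]
    split_ifs <;> norm_num
  · rw [if_neg h1]
    split_ifs <;> norm_num

open Classical in
/-- the sum of the weights -/
lemma kap_sum : ∀ᶠ x : ℕ in atTop, ∑ m ∈ Sx x, kap x m / m ≤ 3 / 4 := by
  have hB := sum_cK 2 (5 / 6) (5 / 12) (9 / 20) (1 / 1000) (by norm_num) (by norm_num) (by
    have := log54
    norm_num at this ⊢
    linarith) (by norm_num)
  have hC := sum_cK 3 (5 / 3 + 1 / 20000) (5 / 9) (1551 / 1000) (1 / 1000) (by norm_num) (by norm_num) (by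
    have := log53
    norm_num at this ⊢
    linarith) (by norm_num)
  have hD := sum_cK 4 (5 / 3 + 1 / 20000) (5 / 12) (901 / 1000) (1 / 1000) (by norm_num) (by norm_num) (by
    have := log54
    norm_num at this ⊢
    linarith) (by norm_num)
  filter_upwards [pairA, hB, hC, hD] with x h1 h2 h3 h4
  have hS : Sx x ⊆ Icc 1 (x ^ 2) := filter_subset _ _
  have g2 := h2 (Sx x) hS
  have g3 := h3 (Sx x) hS
  have g4 := h4 (Sx x) hS
  have g1 := h1 ((Sx x).filter (cA x)) (fun m hm => (mem_filter.1 hm).2)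
  rw [sum_filter] at g1
  have e : ∑ m ∈ Sx x, kap x m / m = ∑ m ∈ Sx x, (if cA x m then (2 : ℝ) / m else 0) +
      343 / 200 * ∑ m ∈ Sx x, (if cK x 2 (5 / 6) m then (1 : ℝ) else 0) / m +
      3 * ∑ m ∈ Sx x, (if cK x 3 (5 / 3 + 1 / 20000) m then (1 : ℝ) else 0) / m +
      4 * ∑ m ∈ Sx x, (if cK x 4 (5 / 3 + 1 / 20000) m then (1 : ℝ) else 0) / m := by
    rw [mul_sum, mul_sum, mul_sum, ← sum_add_distrib, ← sum_add_distrib, ← sum_add_distrib]
    apply sum_congr rfl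
    intro m _
    unfold kap
    by_cases hA : cA x m
    · rw [if_pos hA, if_pos hA]; ring
    · rw [if_neg hA, if_neg hA]; ring
  rw [e]
  norm_num [Nat.factorial] at g2 g3 g4 ⊢
  linarith

lemma term_nonneg (N m : ℕ) : 0 ≤ pi0 (N / m) * (Real.log ((N / m : ℕ) : ℝ) / Real.log N) :=
  mul_nonneg (Pt.pi0_le _).1 (div_nonneg (Real.log_natCast_nonneg _) (Real.log_natCast_nonneg _))

lemma Dp_term_nonneg (P : ℕ → Prop) (N m : ℕ) [Decidable (P m)] :
    0 ≤ if m ∣ N then (if P m then (1 : ℝ) else 0) * (pi0 (N / m) * (Real.log ((N / m : ℕ) : ℝ) / Real.log N)) else 0 := by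
  split_ifs
  · rw [one_mul]; exact term_nonneg N m
  · rw [zero_mul]
  · exact le_rfl

lemma Dp_nonneg (S : Finset ℕ) (P : ℕ → Prop) (N : ℕ) : 0 ≤ Dp S P N := by
  classical
  exact sum_nonneg fun m _ => Dp_term_nonneg P N m

lemma one_le_Dp {N : ℕ} {S : Finset ℕ} {P : ℕ → Prop} (hN : Squarefree N) (hN1 : 1 < N)
    (h : ∀ p ∈ N.primeFactors, N / p ∈ S ∧ P (N / p)) : 1 ≤ Dp S P N := by
  classical
  have hlN : 0 < Real.log N := Real.log_pos (by exact_mod_cast hN1)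
  have hinj : Set.InjOn (fun p => N / p) (N.primeFactors : Set ℕ) := by
    intro p hp q hq hpq
    rw [mem_coe] at hp hq
    simp only at hpq
    have e1 := Nat.div_div_self (Nat.dvd_of_mem_primeFactors hp) (by omega)
    have e2 := Nat.div_div_self (Nat.dvd_of_mem_primeFactors hq) (by omega)
    rw [← e1, hpq, e2]
  have hsub : N.primeFactors.image (fun p => N / p) ⊆ S := by
    intro m hm
    rw [mem_image] at hm
    obtain ⟨p, hp, rfl⟩ := hm
    exact (h p hp).1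
  unfold Dp
  refine le_trans ?_ (sum_le_sum_of_subset_of_nonneg hsub fun m _ _ => Dp_term_nonneg P N m)
  rw [sum_image hinj]
  have e : ∀ p ∈ N.primeFactors, (if N / p ∣ N then (if P (N / p) then (1 : ℝ) else 0) *
      (pi0 (N / (N / p)) * (Real.log ((N / (N / p) : ℕ) : ℝ) / Real.log N)) else 0) = Real.log p / Real.log N := by
    intro p hp
    have hpp := Nat.prime_of_mem_primeFactors hp
    have hpd := Nat.dvd_of_mem_primeFactors hp
    rw [if_pos (Nat.div_dvd_of_dvd hpd), if_pos (h p hp).2, Nat.div_div_self hpd (by omega)]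
    unfold pi0
    rw [if_pos hpp]
    ring
  rw [sum_congr rfl e, ← sum_div, log_sqf hN, div_self hlN.ne']

lemma single_le_Dp {N m : ℕ} {S : Finset ℕ} {P : ℕ → Prop} (hm : m ∈ S) (hd : m ∣ N) (hP : P m) :
    pi0 (N / m) * (Real.log ((N / m : ℕ) : ℝ) / Real.log N) ≤ Dp S P N := by
  classical
  unfold Dp
  refine le_trans ?_ (single_le_sum (f := fun m => if m ∣ N then (if P m then (1 : ℝ) else 0) *
    (pi0 (N / m) * (Real.log ((N / m : ℕ) : ℝ) / Real.log N)) else 0) (fun m _ => Dp_term_nonneg P N m) hm)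
  rw [if_pos hd, if_pos hP, one_mul]

lemma Dfn_kap (x N : ℕ) (S : Finset ℕ) : Dfn S (kap x) N = 2 * Dp S (cA x) N + 343 / 200 * Dp S (cK x 2 (5 / 6)) N +
    3 * Dp S (cK x 3 (5 / 3 + 1 / 20000)) N + 4 * Dp S (cK x 4 (5 / 3 + 1 / 20000)) N := by
  classical
  unfold Dfn Dp
  rw [mul_sum, mul_sum, mul_sum, mul_sum, ← sum_add_distrib, ← sum_add_distrib, ← sum_add_distrib]
  apply sum_congr rfl
  intro m _
  by_cases h : m ∣ N
  · rw [if_pos h, if_pos h, if_pos h, if_pos h, if_pos h]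
    unfold kap
    ring
  · rw [if_neg h, if_neg h, if_neg h, if_neg h, if_neg h]
    ring

/-- the pointwise bound -/
lemma Mj_le {x Q U V N : ℕ} (hx : 2 ≤ x) (hQ : (x : ℝ) ^ (1 / 3 : ℝ) ≤ Q) (hU : (U : ℝ) ≤ (x : ℝ) ^ (5 / 6 : ℝ))
    (hV : (V : ℝ) ≤ (x : ℝ) ^ (5 / 6 + 1 / 5000 : ℝ)) (hN1 : (2 - 1 / 20000) * Real.log x ≤ Real.log N)
    (hN2 : Real.log N ≤ (2 + 1 / 20000) * Real.log x) : Mj Q U V N ≤ Dfn (Sx x) (kap x) N := by
  classical
  have hx0 : (0 : ℝ) < x := by exact_mod_cast (by omega : 0 < x)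
  have hL : 0 < Real.log x := Real.log_pos (by exact_mod_cast (by omega : 1 < x))
  have hNn : 1 < N := by
    by_contra hcon
    have h1 : N = 0 ∨ N = 1 := by omega
    have h2 : Real.log N = 0 := by
      rcases h1 with h | h <;> rw [h] <;> simp
    rw [h2] at hN1
    linarith
  have hN0 : (0 : ℝ) < N := by exact_mod_cast (by omega : 0 < N)
  have hlN : 0 < Real.log N := Real.log_pos (by exact_mod_cast hNn)
  have hlQ : ∀ p : ℕ, Q < p → 1 / 3 * Real.log x < Real.log p := by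
    intro p hp
    have h1 : (x : ℝ) ^ (1 / 3 : ℝ) < p := lt_of_le_of_lt hQ (by exact_mod_cast hp)
    have h2 := Real.log_lt_log (by positivity) h1
    rw [Real.log_rpow hx0] at h2
    exact h2
  -- the cofactor of a prime factor
  have hco : ∀ k : ℕ, Squarefree N → Rough Q N → RX5.w N = k + 1 → ∀ p : ℕ, p.Prime → p ∣ N →
      Squarefree (N / p) ∧ #(N / p).primeFactors = k ∧ (∀ q ∈ (N / p).primeFactors, Q < q ∧ q.Prime ∧ q ∣ N) ∧
      1 ≤ N / p ∧ Real.log ((N / p : ℕ) : ℝ) = Real.log N - Real.log p ∧ 1 / 3 * Real.log x < Real.log p := by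
    intro k hs hr hw p hp hpd
    have hd : N / p ∣ N := Nat.div_dvd_of_dvd hpd
    have h1 := RX5.w_add hs hpd
    have h2 : RX5.w p = 1 := by unfold RX5.w; rw [hp.primeFactors, card_singleton]
    have h3 : RX5.w (N / p) = k := by omega
    refine ⟨hs.squarefree_of_dvd hd, h3, ?_, Nat.div_pos (Nat.le_of_dvd (by omega) hpd) hp.pos, ?_, hlQ p (hr.2 p hp hpd)⟩
    · intro q hq
      have hqp := Nat.prime_of_mem_primeFactors hq
      have hqd := (Nat.dvd_of_mem_primeFactors hq).trans hd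
      exact ⟨hr.2 q hqp hqd, hqp, hqd⟩
    · have hp0 : (p : ℝ) ≠ 0 := by exact_mod_cast hp.ne_zero
      rw [Nat.cast_div hpd hp0, Real.log_div hN0.ne' hp0]
  -- the classes with many primes
  have hpk : ∀ k : ℕ, pik Q (k + 1) N ≤ Dp (Sx x) (cK x k (5 / 3 + 1 / 20000)) N := by
    intro k
    unfold pik
    split_ifs with h
    · obtain ⟨h1, h2, h3⟩ := h
      apply one_le_Dp h1 hNn
      intro p hp
      obtain ⟨g1, g2, g3, g4, g5, g6⟩ := hco k h1 h2 h3 p (Nat.prime_of_mem_primeFactors hp) (Nat.dvd_of_mem_primeFactors hp)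
      refine ⟨mem_Sx hx g4 (by rw [g5]; linarith), g1, g2, fun q hq => hlQ q (g3 q hq).1, ?_⟩
      rw [g5]
      linarith
    · exact Dp_nonneg _ _ _
  have hp4 := hpk 3
  have hp5 := hpk 4
  norm_num at hp4 hp5
  -- the products of three primes
  have hpa : pi3a Q V N ≤ Dp (Sx x) (cA x) N := by
    unfold pi3a
    split_ifs with h
    · obtain ⟨h1, h2, h3, h4⟩ := h
      apply one_le_Dp h1 hNn
      intro p hp
      have hpp := Nat.prime_of_mem_primeFactors hp
      have hpd := Nat.dvd_of_mem_primeFactors hp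
      obtain ⟨g1, g2, g3, g4, g5, g6⟩ := hco 2 h1 h2 h3 p hpp hpd
      have hlV : ∀ q : ℕ, q.Prime → q ∣ N → Real.log q ≤ (5 / 6 + 1 / 5000) * Real.log x := by
        intro q hq hqd
        have k1 : (q : ℝ) ≤ (x : ℝ) ^ (5 / 6 + 1 / 5000 : ℝ) := le_trans (by exact_mod_cast h4 q hq hqd) hV
        have k2 := Real.log_le_log (by exact_mod_cast hq.pos) k1
        rw [Real.log_rpow hx0] at k2
        exact k2
      have g7 : Real.log ((N / p : ℕ) : ℝ) ≤ 2 * ((5 / 6 + 1 / 5000) * Real.log x) := by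
        rw [← log_sqf g1]
        calc ∑ q ∈ (N / p).primeFactors, Real.log q ≤ ∑ _q ∈ (N / p).primeFactors, (5 / 6 + 1 / 5000) * Real.log x :=
              sum_le_sum fun q hq => hlV q (g3 q hq).2.1 (g3 q hq).2.2
          _ = _ := by rw [sum_const, g2, nsmul_eq_mul]; push_cast; ring
      refine ⟨mem_Sx hx g4 (by linarith), g1, g2, fun q hq => ⟨hlQ q (g3 q hq).1, ?_⟩, ?_⟩
      · have := hlV q (g3 q hq).2.1 (g3 q hq).2.2
        linarith
      · have := hlV p hpp hpd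
        rw [g5]
        linarith
    · exact Dp_nonneg _ _ _
  have hpb : pi3b Q U N ≤ 343 / 200 * Dp (Sx x) (cK x 2 (5 / 6)) N := by
    unfold pi3b
    split_ifs with h
    · obtain ⟨h1, h2, h3, p, hpp, hpd, hpU⟩ := h
      obtain ⟨g1, g2, g3, g4, g5, g6⟩ := hco 2 h1 h2 h3 p hpp hpd
      have g7 : Real.log ((N / p : ℕ) : ℝ) ≤ 5 / 6 * Real.log x := by
        have k1 : ((N / p : ℕ) : ℝ) ≤ (x : ℝ) ^ (5 / 6 : ℝ) := le_trans (by exact_mod_cast hpU) hU
        have k2 := Real.log_le_log (by exact_mod_cast g4) k1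
        rw [Real.log_rpow hx0] at k2
        exact k2
      have k3 := single_le_Dp (P := cK x 2 (5 / 6)) (mem_Sx hx g4 (by linarith)) (Nat.div_dvd_of_dvd hpd)
        ⟨g1, g2, fun q hq => hlQ q (g3 q hq).1, g7⟩
      rw [Nat.div_div_self hpd (by omega)] at k3
      have k4 : pi0 p = 1 := by unfold pi0; rw [if_pos hpp]
      rw [k4, one_mul] at k3
      have k5 : 200 / 343 ≤ Real.log p / Real.log N := by
        rw [le_div_iff₀ hlN]
        linarith
      linarith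
    · exact mul_nonneg (by norm_num) (Dp_nonneg _ _ _)
  rw [Dfn_kap]
  unfold Mj
  linarith

/-- the logarithms of the ends -/
lemma logs (a : ℤ) (ha : 0 < a) (b : ℤ) (R : ℕ) (τ : ℝ) (hτ : 0 < τ) : ∀ᶠ x : ℕ in atTop, ∀ x1 x2 : ℕ,
    x1 < x2 → x2 ≤ x → x ≤ R * x1 → (2 - τ) * Real.log x ≤ Real.log (Fn a b x1) ∧
      Real.log (Fn a b x2) ≤ (2 + τ) * Real.log x := by
  have hl : Tendsto (fun x : ℕ => Real.log x) atTop atTop :=
    Real.tendsto_log_atTop.comp tendsto_natCast_atTop_atTop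
  have hc : Tendsto (fun x : ℕ => (x : ℝ)) atTop atTop := tendsto_natCast_atTop_atTop
  filter_upwards [hl.eventually_ge_atTop (Real.log (2 * R ^ 2) / τ), hl.eventually_ge_atTop (Real.log (a + |(b : ℝ)|) / τ),
    hc.eventually_ge_atTop (2 * R * (|(b : ℝ)| + 1)), eventually_ge_atTop 3] with x h1 h2 h3 hx3
  intro x1 x2 hx12 hx2 hxR
  rw [div_le_iff₀ hτ] at h1 h2
  have ha1 : (1 : ℝ) ≤ a := by exact_mod_cast ha
  have hb0 := abs_nonneg (b : ℝ)
  have hX : (0 : ℝ) < x := by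
    have : 0 < x := by omega
    exact_mod_cast this
  have hR1 : (1 : ℝ) ≤ R := by
    rcases Nat.eq_zero_or_pos R with h | h
    · rw [h, zero_mul] at hxR; omega
    · exact_mod_cast h
  have hXR : (x : ℝ) ≤ R * x1 := by exact_mod_cast hxR
  have hx12' : (x1 : ℝ) < x2 := by exact_mod_cast hx12
  have hx2' : (x2 : ℝ) ≤ x := by exact_mod_cast hx2
  have hx1b : 2 * (|(b : ℝ)| + 1) ≤ x1 := by
    have : (R : ℝ) * (2 * (|(b : ℝ)| + 1)) ≤ R * x1 := by linarith
    exact le_of_mul_le_mul_left this (by linarith)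
  have hn1 : |b| ≤ (x1 : ℤ) := by
    have : |(b : ℝ)| ≤ x1 := by linarith
    exact_mod_cast this
  have hn2 : |b| ≤ (x2 : ℤ) := hn1.trans (by exact_mod_cast hx12.le)
  have e1 := lsl_Fn_cast ha b hn1
  have e2 := lsl_Fn_cast ha b hn2
  have hb1 := neg_abs_le (b : ℝ)
  have hb2 := le_abs_self (b : ℝ)
  have hx1p : (0 : ℝ) < x1 := by linarith
  have hx2p : (0 : ℝ) < x2 := by linarith
  have l1 : (x : ℝ) ^ 2 / (2 * R ^ 2) ≤ (Fn a b x1 : ℝ) := by
    rw [e1]
    rw [div_le_iff₀ (by positivity)]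
    have k1 : (x : ℝ) ^ 2 ≤ (R * x1) ^ 2 := pow_le_pow_left₀ hX.le hXR 2
    have k2 : (x1 : ℝ) ^ 2 ≤ 2 * (a * x1 ^ 2 + b * x1) := by nlinarith
    calc (x : ℝ) ^ 2 ≤ (R * x1) ^ 2 := k1
      _ = R ^ 2 * x1 ^ 2 := by ring
      _ ≤ R ^ 2 * (2 * (a * x1 ^ 2 + b * x1)) := mul_le_mul_of_nonneg_left k2 (by positivity)
      _ = _ := by ring
  have l2 : (Fn a b x2 : ℝ) ≤ (a + |(b : ℝ)|) * x ^ 2 := by
    rw [e2]
    have k1 : (x2 : ℝ) ^ 2 ≤ x ^ 2 := pow_le_pow_left₀ hx2p.le hx2' 2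
    have k2 : (b : ℝ) * x2 ≤ |(b : ℝ)| * x2 ^ 2 := by
      have k3 : (1 : ℝ) ≤ x2 := by linarith
      have k4 : (x2 : ℝ) ≤ x2 ^ 2 := by nlinarith
      calc (b : ℝ) * x2 ≤ |(b : ℝ)| * x2 := mul_le_mul_of_nonneg_right hb2 hx2p.le
        _ ≤ _ := mul_le_mul_of_nonneg_left k4 hb0
    calc (a : ℝ) * x2 ^ 2 + b * x2 ≤ a * x2 ^ 2 + |(b : ℝ)| * x2 ^ 2 := by linarith
      _ = (a + |(b : ℝ)|) * x2 ^ 2 := by ring
      _ ≤ _ := mul_le_mul_of_nonneg_left k1 (by linarith)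
  have hF1 : (0 : ℝ) < Fn a b x1 := lt_of_lt_of_le (by positivity) l1
  have hF2 : (0 : ℝ) < Fn a b x2 := by
    rw [e2]
    nlinarith
  refine ⟨?_, ?_⟩
  · have := Real.log_le_log (by positivity) l1
    rw [Real.log_div (by positivity) (by positivity), Real.log_pow] at this
    push_cast at this
    linarith
  · have := Real.log_le_log hF2 l2
    rw [Real.log_mul (by positivity) (by positivity), Real.log_pow] at this
    push_cast at this
    linarith

end Cst

/-- **the loss** -/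
theorem x4q (a : ℤ) (ha : 0 < a) (b : ℤ) (R : ℕ) : X4q a b R := by
  intro η hη
  refine ⟨1 / 5000, by norm_num, ?_⟩
  have h0 : 0 < min η 1 := lt_min hη one_pos
  obtain ⟨x0, hx0⟩ := eventually_atTop.1 ((Cst.core a ha b R (min η 1) h0 (min_le_right _ _)).and
    (Cst.kap_sum.and ((Cst.logs a ha b R (1 / 20000) (by norm_num)).and (eventually_ge_atTop 2))))
  refine ⟨x0, fun x hx x1 x2 Q U V h12 h2 hR hQ hU hV => ?_⟩
  obtain ⟨g1, g2, g3, g4⟩ := hx0 x hx
  have k := g1 x1 x2 h12 h2 hR (Cst.Sx x) (Cst.kap x) (3 / 4) (fun m hm => by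
    unfold Cst.Sx at hm
    rw [mem_filter, mem_Icc] at hm
    exact ⟨hm.1.1, hm.2⟩) (Cst.kap_bd x) g2 (by norm_num)
  obtain ⟨l1, l2⟩ := g3 x1 x2 h12 h2 hR
  have hX : (0 : ℝ) < x := by exact_mod_cast (by omega : 0 < x)
  have hL : 0 < Real.log x := Real.log_pos (by exact_mod_cast (by omega : 1 < x))
  have hle : Ls a b x1 x2 (Mj Q U V) ≤ Ls a b x1 x2 (Cst.Dfn (Cst.Sx x) (Cst.kap x)) := by
    unfold Ls
    apply sum_le_sum
    intro N hN
    rw [mem_Ioc] at hN
    have hF1 : 0 < Fn a b x1 := by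
      rcases Nat.eq_zero_or_pos (Fn a b x1) with h | h
      · rw [h] at l1
        simp at l1
        linarith
      · exact h
    have m1 : Real.log (Fn a b x1) ≤ Real.log N := Real.log_le_log (by exact_mod_cast hF1) (by exact_mod_cast hN.1.le)
    have m2 : Real.log N ≤ Real.log (Fn a b x2) :=
      Real.log_le_log (by exact_mod_cast (by omega : 0 < N)) (by exact_mod_cast hN.2)
    exact mul_le_mul_of_nonneg_right (Cst.Mj_le g4 hQ hU hV (by linarith) (by linarith)) (lsl_hw_nonneg a N)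
  have hm : min η 1 * (x / Real.log x) ≤ η * (x / Real.log x) :=
    mul_le_mul_of_nonneg_right (min_le_left _ _) (by positivity)
  linarith

end Pool.Agent.W2helper63.TA
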