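import Mathlib
import Pool.Agent.N792.RPar
import Pool.Agent.N792.LamA
import Pool.Agent.N792.LamB

/-!
The parameters (helper63); the proof follows `N792/RPar`.
-/

set_option autoImplicit false

namespace Pool.Agent.W2helper63.TA

open Finset Filter Topology
open Pool.Agent.N792

namespace Par

open Pool.Agent.N792.Par (ceil_pow)

/-- the sizes -/
lemma params (e ε c0 A : ℝ) (he : 0 < e) (he1 : e ≤ 1 / 100) (hε : 0 < ε) (hε1 : ε ≤ 1 / 100) (hc0 : 0 < c0) (hA : 1 ≤ A) :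
    ∀ᶠ x : ℕ in atTop, ∃ U y Q V : ℕ, 1 ≤ U ∧ Q ≤ U ∧ U ≤ V ∧ V ≤ y ∧ (y : ℝ) ≤ (x : ℝ) ^ (1 - ε) ∧
      (x : ℝ) ^ (1 - 2 * ε) ≤ y ∧ (x : ℝ) ^ (5 / 6 - e) ≤ U ∧ (U : ℝ) ≤ (x : ℝ) ^ (5 / 6 : ℝ) ∧
      (x : ℝ) ^ (1 / 3 : ℝ) ≤ Q ∧ (Q : ℝ) ≤ (x : ℝ) ^ (9 / 20 : ℝ) ∧ (V : ℝ) ≤ (x : ℝ) ^ (5 / 6 + 2 * e) ∧
      ((Q * Q : ℕ) : ℝ) ≤ (x : ℝ) ^ (9 / 10 : ℝ) ∧ ((y * y : ℕ) : ℝ) ≤ c0 * x ^ 2 ∧ A * (x : ℝ) ^ 2 < ((Q ^ 6 : ℕ) : ℝ) ∧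
      ((U * U * Q : ℕ) : ℝ) ≤ c0 * x ^ 2 ∧
      A * (x : ℝ) ^ 2 ≤ ((U * U * U : ℕ) : ℝ) ∧ A * (x : ℝ) ^ 2 ≤ ((U * V * Q : ℕ) : ℝ) := by
  filter_upwards [Lam.pow_ev 2 (5 / 6 - e) (5 / 6) (by linarith), Lam.pow_ev 2 (1 - 2 * ε) (1 - ε) (by linarith),
    Lam.pow_ev (1 / c0) (2 - 2 * ε) 2 (by linarith), Lam.pow_ev 2 (1 / 3 + e) (9 / 20) (by linarith),
    Lam.pow_ev 2 (5 / 6 + e) (5 / 6 + 2 * e) (by linarith), Lam.pow_ev (2 * A) 2 (2 + 6 * e) (by linarith),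
    Lam.pow_ev (8 / c0) (2 - e) 2 (by linarith), Lam.pow_ev A 2 (5 / 2 - 3 * e) (by linarith),
    Lam.pow_ev A 2 (2 + e) (by linarith),
    Lam.pow_ev 2 (1 / 3 + e) (5 / 6 - e) (by linarith), Lam.pow_ev 2 (5 / 6 + e) (1 - ε) (by linarith),
    eventually_ge_atTop 1] with x h1 h2 h3 h4 h5 h6 h9 h8 h10 h11 h12 hx1
  have hxr : (1 : ℝ) ≤ x := by exact_mod_cast hx1
  have hxp : (0 : ℝ) < x := by linarith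
  have x2 : (x : ℝ) ^ (2 : ℝ) = (x : ℝ) ^ 2 := by norm_cast
  rw [x2] at h3 h6 h8 h9 h10
  obtain ⟨U, hU⟩ : ∃ U : ℕ, U = ⌈(x : ℝ) ^ (5 / 6 - e)⌉₊ := ⟨_, rfl⟩
  obtain ⟨Q, hQ⟩ : ∃ Q : ℕ, Q = ⌈(x : ℝ) ^ (1 / 3 + e)⌉₊ := ⟨_, rfl⟩
  obtain ⟨V, hV⟩ : ∃ V : ℕ, V = ⌈(x : ℝ) ^ (5 / 6 + e)⌉₊ := ⟨_, rfl⟩
  obtain ⟨y, hy⟩ : ∃ y : ℕ, y = ⌊(x : ℝ) ^ (1 - ε)⌋₊ := ⟨_, rfl⟩
  have hU1 : (x : ℝ) ^ (5 / 6 - e) ≤ U := by rw [hU]; exact Nat.le_ceil _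
  have hQ1 : (x : ℝ) ^ (1 / 3 + e) ≤ Q := by rw [hQ]; exact Nat.le_ceil _
  have hV1 : (x : ℝ) ^ (5 / 6 + e) ≤ V := by rw [hV]; exact Nat.le_ceil _
  have hU2 : (U : ℝ) ≤ 2 * (x : ℝ) ^ (5 / 6 - e) := by rw [hU]; exact ceil_pow hx1 (by linarith)
  have hQ2 : (Q : ℝ) ≤ 2 * (x : ℝ) ^ (1 / 3 + e) := by rw [hQ]; exact ceil_pow hx1 (by linarith)
  have hV2 : (V : ℝ) ≤ 2 * (x : ℝ) ^ (5 / 6 + e) := by rw [hV]; exact ceil_pow hx1 (by linarith)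
  have hy1 : (y : ℝ) ≤ (x : ℝ) ^ (1 - ε) := by rw [hy]; exact Nat.floor_le (by positivity)
  have hy2 : (x : ℝ) ^ (1 - ε) < y + 1 := by rw [hy]; exact Nat.lt_floor_add_one _
  have k2 : (1 : ℝ) ≤ (x : ℝ) ^ (1 - 2 * ε) := Real.one_le_rpow hxr (by linarith)
  have kU : (1 : ℝ) ≤ (x : ℝ) ^ (5 / 6 - e) := Real.one_le_rpow hxr (by linarith)
  have hQ6 : (x : ℝ) ^ (2 + 6 * e) ≤ (Q : ℝ) ^ 6 := by
    calc (x : ℝ) ^ (2 + 6 * e) = ((x : ℝ) ^ (1 / 3 + e)) ^ 6 := by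
          rw [← Real.rpow_natCast, ← Real.rpow_mul hxp.le]; congr 1; push_cast; ring
      _ ≤ (Q : ℝ) ^ 6 := pow_le_pow_left₀ (by positivity) hQ1 6
  refine ⟨U, y, Q, V, ?_, ?_, ?_, ?_, hy1, ?_, hU1, hU2.trans h1, ?_, hQ2.trans h4, hV2.trans h5, ?_, ?_, ?_, ?_, ?_, ?_⟩
  · have : (1 : ℝ) ≤ U := kU.trans hU1
    exact_mod_cast this
  · have : (Q : ℝ) ≤ U := (hQ2.trans h11).trans hU1
    exact_mod_cast this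
  · have h : (x : ℝ) ^ (5 / 6 - e) ≤ (x : ℝ) ^ (5 / 6 + e) := Real.rpow_le_rpow_of_exponent_le hxr (by linarith)
    rw [hU, hV]
    exact Nat.ceil_le_ceil h
  · rw [hy]
    exact Nat.le_floor (hV2.trans h12)
  · linarith
  · exact (Real.rpow_le_rpow_of_exponent_le hxr (by linarith)).trans hQ1
  · push_cast
    calc (Q : ℝ) * Q ≤ (x : ℝ) ^ (9 / 20 : ℝ) * (x : ℝ) ^ (9 / 20 : ℝ) :=
          mul_le_mul (hQ2.trans h4) (hQ2.trans h4) (Nat.cast_nonneg _) (by positivity)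
      _ = (x : ℝ) ^ (9 / 10 : ℝ) := by rw [← Real.rpow_add hxp]; norm_num
  · push_cast
    rw [div_mul_eq_mul_div, one_mul, div_le_iff₀ hc0] at h3
    calc (y : ℝ) * y ≤ (x : ℝ) ^ (1 - ε) * (x : ℝ) ^ (1 - ε) := by gcongr
      _ = (x : ℝ) ^ (2 - 2 * ε) := by rw [← Real.rpow_add hxp]; congr 1; ring
      _ ≤ c0 * x ^ 2 := by linarith
  · push_cast
    have : (0 : ℝ) < (x : ℝ) ^ 2 := by positivity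
    have : A * (x : ℝ) ^ 2 < 2 * A * (x : ℝ) ^ 2 := by nlinarith
    linarith
  · push_cast
    rw [div_mul_eq_mul_div, div_le_iff₀ hc0] at h9
    calc (U : ℝ) * U * Q ≤ (2 * (x : ℝ) ^ (5 / 6 - e)) * (2 * (x : ℝ) ^ (5 / 6 - e)) * (2 * (x : ℝ) ^ (1 / 3 + e)) := by gcongr
      _ = 8 * ((x : ℝ) ^ (5 / 6 - e) * (x : ℝ) ^ (5 / 6 - e) * (x : ℝ) ^ (1 / 3 + e)) := by ring
      _ = 8 * (x : ℝ) ^ (2 - e) := by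
          rw [← Real.rpow_add hxp, ← Real.rpow_add hxp]
          congr 2
          ring
      _ ≤ c0 * x ^ 2 := by linarith
  · push_cast
    calc A * (x : ℝ) ^ 2 ≤ (x : ℝ) ^ (5 / 2 - 3 * e) := h8
      _ = (x : ℝ) ^ (5 / 6 - e) * (x : ℝ) ^ (5 / 6 - e) * (x : ℝ) ^ (5 / 6 - e) := by
          rw [← Real.rpow_add hxp, ← Real.rpow_add hxp]; congr 1; ring
      _ ≤ (U : ℝ) * U * U := by gcongr
  · push_cast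
    calc A * (x : ℝ) ^ 2 ≤ (x : ℝ) ^ (2 + e) := h10
      _ = (x : ℝ) ^ (5 / 6 - e) * (x : ℝ) ^ (5 / 6 + e) * (x : ℝ) ^ (1 / 3 + e) := by
          rw [← Real.rpow_add hxp, ← Real.rpow_add hxp]; congr 1; ring
      _ ≤ (U : ℝ) * V * Q := by gcongr

end Par

end Pool.Agent.W2helper63.TA
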