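import Mathlib
import Pool.Agent.W2helper63.TA.Def

/-!
The combination of type I and type II functions is `1` at the primes, `≤ 0` elsewhere, and `≥ - Mj` (helper63).
-/

set_option autoImplicit false

namespace Pool.Agent.W2helper63.TA.Idn

open Finset
open Pool.Agent.N792 Pool.Agent.N792.SwR Pool.Agent.N792.RX5
open ArithmeticFunction (moebius)

/-- the terms of the type II sums with `alq` (proof of `RX5.alf_rg`) -/
lemma alq_rg {Q U K N q0 M i0 : ℕ} {zs : ℕ → ℕ} (hmono : ∀ i j, i ≤ j → j ≤ K → zs i ≤ zs j) (hM : N = M * q0)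
    (hq0 : q0.Prime) (hmin : ∀ p, p.Prime → p ∣ N → q0 ≤ p)
    (hi0 : i0 < K) (h1 : zs i0 < q0) (h2 : q0 ≤ zs (i0 + 1)) (hN0 : N ≠ 0)
    (hMr : Rough (zs (i0 + 1)) M)
    (huniq : ∀ i < K, ∀ p q : ℕ, p.Prime → q.Prime → p ∣ N → q ∣ N → zs i < p → p ≤ zs (i + 1) → zs i < q →
      q ≤ zs (i + 1) → p = q) {i : ℕ} (hi : i < K) {j : ℕ} (hj : j ∣ N) :
    alq Q (zs i) (zs (i + 1)) U j * rg (zs (i + 1)) (N / j) =
      if i = i0 ∧ q0 ∣ j ∧ j / q0 ≤ U then gw Q (j / q0) else 0 := by
  have hj0 : j ≠ 0 := fun h => hN0 (by rw [h] at hj; exact Nat.eq_zero_of_zero_dvd hj)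
  by_cases hii : i = i0
  · subst hii
    by_cases hqj : q0 ∣ j
    · have e1 : (j.primeFactors.filter (fun q => zs i < q ∧ q ≤ zs (i + 1))) = {q0} := by
        ext q
        rw [mem_filter, Nat.mem_primeFactors, mem_singleton]
        constructor
        · rintro ⟨⟨h3, h4, _⟩, h5, h6⟩
          exact huniq i hi q q0 h3 hq0 (h4.trans hj) (hqj.trans hj) h5 h6 h1 h2
        · rintro rfl
          exact ⟨⟨hq0, hqj, hj0⟩, h1, h2⟩
      obtain ⟨d, rfl⟩ := hqj
      have hd : d ∣ M := by
        rw [hM, mul_comm M q0] at hj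
        exact Nat.dvd_of_mul_dvd_mul_left hq0.pos hj
      have e2 : N / (q0 * d) = M / d := by
        rw [hM, mul_comm M q0, Nat.mul_div_mul_left _ _ hq0.pos]
      have e3 : q0 * d / q0 = d := Nat.mul_div_cancel_left d hq0.pos
      unfold alq
      rw [e1, sum_singleton, e2, rg_of (rough_of_dvd hMr (Nat.div_dvd_of_dvd hd)), mul_one, e3]
      have h4 : Rough (zs (i + 1)) d := rough_of_dvd hMr hd
      simp only [h4, true_and, dvd_mul_right]
    · have e1 : (j.primeFactors.filter (fun q => zs i < q ∧ q ≤ zs (i + 1))) = ∅ := by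
        apply filter_eq_empty_iff.2
        intro q hq hq2
        rw [Nat.mem_primeFactors] at hq
        have := huniq i hi q q0 hq.1 hq0 (hq.2.1.trans hj) (by rw [hM]; exact dvd_mul_left _ _) hq2.1 hq2.2 h1 h2
        rw [this] at hq
        exact hqj hq.2.1
      unfold alq
      rw [e1, sum_empty, zero_mul, if_neg (fun h => hqj h.2.1)]
  · rw [if_neg (fun h => hii h.1)]
    by_cases hr : Rough (zs (i + 1)) (N / j)
    · have : alq Q (zs i) (zs (i + 1)) U j = 0 := by
        unfold alq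
        apply sum_eq_zero
        intro q hq
        rw [mem_filter, Nat.mem_primeFactors] at hq
        obtain ⟨⟨hqp, hqj, _⟩, hq1, hq2⟩ := hq
        rw [if_neg]
        rintro ⟨h3, _⟩
        have e4 : q * (j / q) * (N / j) = N := by
          rw [Nat.mul_div_cancel' hqj, Nat.mul_div_cancel' hj]
        have h5 : q0 ∣ q * (j / q) * (N / j) := by rw [e4, hM]; exact dvd_mul_left _ _
        have h6 : q0 ≤ q := hmin q hqp (hqj.trans hj)
        have h7 : q0 = q := by
          rcases hq0.dvd_mul.1 h5 with h5 | h5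
          · rcases hq0.dvd_mul.1 h5 with h5 | h5
            · exact (Nat.prime_dvd_prime_iff_eq hq0 hqp).1 h5
            · have := h3.2 q0 hq0 h5
              omega
          · have := hr.2 q0 hq0 h5
            omega
        rcases Nat.lt_or_gt_of_ne hii with h8 | h8
        · have := hmono (i + 1) i0 h8 hi0.le
          omega
        · have := hmono (i0 + 1) i h8 hi.le
          omega
      rw [this, zero_mul]
    · rw [rg_not hr, mul_zero]

/-- the case that `N` has a prime factor `≤ Q` -/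
lemma case1 {z U y Q V K N : ℕ} {zs : ℕ → ℕ} (hQU : Q ≤ U) (hUV : U ≤ V) (hVy : V ≤ y)
    (hz0 : zs 0 = z) (hzK : zs K = Q) (hmono0 : ∀ i < K, zs i ≤ zs (i + 1)) (hyN : y * y < N)
    (hUUQ : U * U * Q < N) (hsq : Squarefree N) (hro : Rough z N) (hne : ∀ j, j ∣ N → ¬ (y ≤ j ∧ y ≤ N / j))
    (huniq : ∀ i < K, ∀ p q : ℕ, p.Prime → q.Prime → p ∣ N → q ∣ N → zs i < p → p ≤ zs (i + 1) → zs i < q →
      q ≤ zs (i + 1) → p = q) (hQ : ¬ Rough Q N) :
    HLQ z U y Q V K zs N = 0 := by
  have hN0 := hro.1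
  have hN1 : N ≠ 1 := by
    rintro rfl
    exact hQ ⟨one_ne_zero, fun p hp h => absurd (Nat.dvd_one.1 h) hp.ne_one⟩
  obtain ⟨q0, hq0, hq0N, hmin⟩ : ∃ q0 : ℕ, q0.Prime ∧ q0 ∣ N ∧ ∀ p, p.Prime → p ∣ N → q0 ≤ p :=
    ⟨N.minFac, Nat.minFac_prime hN1, Nat.minFac_dvd N, fun p hp h => Nat.minFac_le_of_dvd hp.two_le h⟩
  have hzq : z < q0 := hro.2 q0 hq0 hq0N
  have hqQ : q0 ≤ Q := by
    by_contra h
    push Not at h
    exact hQ ⟨hN0, fun p hp h2 => h.trans_le (hmin p hp h2)⟩
  obtain ⟨M, hM⟩ : ∃ M, N = M * q0 := by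
    obtain ⟨M, hM⟩ := hq0N
    exact ⟨M, by rw [hM, mul_comm]⟩
  have hMq : ¬ q0 ∣ M := by
    intro h
    have h3 : q0 * q0 ∣ N := by rw [hM]; exact Nat.mul_dvd_mul_right h q0
    exact hq0.one_lt.ne' (Nat.isUnit_iff.1 (hsq q0 h3))
  have hM0 : M ≠ 0 := by
    rintro rfl
    rw [zero_mul] at hM
    exact hN0 hM
  have hmono : ∀ i j, i ≤ j → j ≤ K → zs i ≤ zs j := by
    intro i j hij
    induction j, hij using Nat.le_induction with
    | base => intro _; exact le_rfl
    | succ j hj ih => intro h; exact (ih (by omega)).trans (hmono0 j (by omega))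
  obtain ⟨i0, hi0, h1, h2⟩ : ∃ i0, i0 < K ∧ zs i0 < q0 ∧ q0 ≤ zs (i0 + 1) := by
    have hex : ∃ i, q0 ≤ zs i := ⟨K, by rw [hzK]; exact hqQ⟩
    classical
    have hfind := Nat.find_spec hex
    have hpos : Nat.find hex ≠ 0 := by
      intro h
      rw [h, hz0] at hfind
      omega
    refine ⟨Nat.find hex - 1, ?_, ?_, ?_⟩
    · have : Nat.find hex ≤ K := Nat.find_min' hex (by rw [hzK]; exact hqQ)
      omega
    · have := Nat.find_min hex (m := Nat.find hex - 1) (by omega)
      omega
    · rw [Nat.sub_add_cancel (by omega)]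
      exact hfind
  have hMr : Rough (zs (i0 + 1)) M := by
    refine ⟨hM0, fun p hp hpM => ?_⟩
    by_contra h
    push Not at h
    have hpN : p ∣ N := hpM.trans (by rw [hM]; exact dvd_mul_right _ _)
    have h3 := hmin p hp hpN
    have := huniq i0 hi0 p q0 hp hq0 hpN hq0N (by omega) h h1 h2
    rw [this] at hpM
    exact hMq hpM
  have hE1 : ∀ i < K, T2 z U y (alq Q (zs i) (zs (i + 1)) U) (rg (zs (i + 1))) N =
      ∑ j ∈ N.divisors, if U < j ∧ j ≤ y then
        (if i = i0 ∧ q0 ∣ j ∧ j / q0 ≤ U then gw Q (j / q0) else 0) else 0 := by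
    intro i hi
    rw [T2_eq hro]
    apply sum_congr rfl
    intro j hj
    rw [Nat.mem_divisors] at hj
    rw [alq_rg hmono hM hq0 hmin hi0 h1 h2 hN0 hMr huniq hi hj.1]
  have hE2 : ∀ i < K, T2 z U y (rg (zs (i + 1))) (alq Q (zs i) (zs (i + 1)) U) N =
      ∑ j ∈ N.divisors, if U < N / j ∧ N / j ≤ y then
        (if i = i0 ∧ q0 ∣ j ∧ j / q0 ≤ U then gw Q (j / q0) else 0) else 0 := by
    intro i hi
    rw [T2_eq hro, ← Nat.sum_div_divisors N]
    apply sum_congr rfl
    intro j hj
    rw [Nat.mem_divisors] at hj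
    rw [Nat.div_div_self hj.1 hN0, mul_comm, alq_rg hmono hM hq0 hmin hi0 h1 h2 hN0 hMr huniq hi hj.1]
  have hS : ∑ i ∈ range K, (T2 z U y (alq Q (zs i) (zs (i + 1)) U) (rg (zs (i + 1))) N +
      T2 z U y (rg (zs (i + 1))) (alq Q (zs i) (zs (i + 1)) U) N) = T1 z U (gw Q) N := by
    rw [sum_eq_single i0]
    · rw [hE1 i0 hi0, hE2 i0 hi0, ← sum_add_distrib, T1_eq hro, hM, sum_div_mul hM0 hq0 hMq,
        sum_div_mul hM0 hq0 hMq, ← sum_add_distrib, ← sum_add_distrib]
      apply sum_congr rfl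
      intro d hd
      rw [Nat.mem_divisors] at hd
      have hd0 : 0 < d := Nat.pos_of_dvd_of_pos hd.1 (Nat.pos_of_ne_zero hM0)
      have hqd : ¬ q0 ∣ d := fun h => hMq (h.trans hd.1)
      have hmu : gw Q (d * q0) = - gw Q d := gw_mul hq0 hqQ hd0.ne' hqd
      have hdN : d * q0 ∣ N := by rw [hM]; exact Nat.mul_dvd_mul_right hd.1 q0
      have hnear := near hyN hdN (hne _ hdN)
      have hbig : d ≤ U → U < N / (d * q0) := by
        intro hdU
        by_contra h
        push Not at h
        have e5 := Nat.mul_div_cancel' hdN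
        have : d * q0 * (N / (d * q0)) ≤ U * Q * U := Nat.mul_le_mul (Nat.mul_le_mul hdU hqQ) h
        nlinarith
      have hdd : d ≤ d * q0 := Nat.le_mul_of_pos_right d hq0.pos
      rw [hmu, Nat.mul_div_cancel d hq0.pos, ← hM]
      simp only [hqd, dvd_mul_left, true_and, false_and, if_false, ite_self, add_zero, zero_add]
      generalize d * q0 = A at *
      generalize N / A = B at *
      by_cases c1 : d ≤ U
      · have c2 := hbig c1
        simp only [c1, c2, if_true, true_and]
        split_ifs <;> first | (exfalso; omega) | ring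
      · simp only [c1, if_false, ite_self]
        rw [if_neg (by omega)]
    · intro i hi hii
      rw [mem_range] at hi
      rw [hE1 i hi, hE2 i hi]
      simp [hii]
    · intro h
      exact absurd (mem_range.2 hi0) h
  have hp0 : ∀ j, Q ≤ U → U < j → pi0 j ≠ 0 → Rough Q j := fun j h1 h2 h3 => prime_rough (pi0_ne h3) (by omega)
  have hp1 : ∀ j, j ∣ N → j ≤ y → pi0 (N / j) ≠ 0 → Rough Q (N / j) := by
    intro j hj h1 h3
    refine prime_rough (pi0_ne h3) ?_
    by_contra h
    push Not at h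
    have := Nat.mul_div_cancel' hj
    have h4 : j * (N / j) ≤ y * y := Nat.mul_le_mul h1 (by omega)
    omega
  unfold HLQ
  rw [hS, T2_zero hro hQ (fun j _ h1 h2 => hp0 j hQU h1 h2) (fun j hj _ h1 h2 => hp1 j hj h1 h2),
    T2_zero hro hQ (fun j _ h1 h2 => prime_rough (pi0_ne h2) (by omega)) (fun j hj _ h1 h2 => pi2_ne h2),
    T2_zero hro hQ (fun j _ h1 h2 => pi2_ne h2) (fun j hj _ h1 h2 => hp1 j hj h1 h2)]
  ring

lemma big_rough {Q j : ℕ} (hr : Rough Q j) : big Q j = w j := by
  unfold big w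
  congr 1
  apply filter_true_of_mem
  intro p hp
  rw [Nat.mem_primeFactors] at hp
  exact hr.2 p hp.1 hp.2.1

lemma T1_gw {z U Q N : ℕ} (hro : Rough z N) (hsq : Squarefree N) (hr : Rough Q N) (hU : 1 ≤ U) :
    T1 z U (gw Q) N = 1 - (#(N.divisors.filter (fun j => w j = 1 ∧ j ≤ U)) : ℝ) := by
  rw [T1_eq hro, card_filter, Nat.cast_sum]
  have h1 : ∑ j ∈ N.divisors, (if j = 1 then (1 : ℝ) else 0) = 1 := by
    rw [sum_ite_eq' N.divisors 1 (fun _ => (1 : ℝ)), if_pos (Nat.one_mem_divisors.2 hro.1)]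
  rw [← h1, ← sum_sub_distrib]
  apply sum_congr rfl
  intro j hj
  rw [Nat.mem_divisors] at hj
  have hjs : Squarefree j := hsq.squarefree_of_dvd hj.1
  have hjr : Rough Q j := rough_of_dvd hr hj.1
  unfold gw
  rw [big_rough hjr]
  by_cases h2 : j ≤ U
  · rcases Nat.lt_or_ge (w j) 1 with h4 | h4
    · have h5 := one_of_w hjs (by omega)
      have h6 : w j = 0 := by omega
      subst h5
      simp [h6, hU]
    · rcases Nat.lt_or_ge (w j) 2 with h3 | h3
      · have h5 : w j = 1 := by omega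
        have h6 := prime_of_w hjs h5
        rw [ArithmeticFunction.moebius_apply_prime h6]
        simp [h2, h5, h6.ne_one]
      · have h5 : j ≠ 1 := by
          rintro rfl
          simp [w] at h3
        have h6 : ¬ w j ≤ 1 := by omega
        have h7 : w j ≠ 1 := by omega
        simp [h5, h6, h7]
  · have h3 : j ≠ 1 := by omega
    simp [h2, h3]

lemma pik_le (Q k N : ℕ) : 0 ≤ pik Q k N ∧ pik Q k N ≤ 1 := by
  unfold pik
  split_ifs <;> norm_num

lemma pi3a_le (Q V N : ℕ) : 0 ≤ pi3a Q V N ∧ pi3a Q V N ≤ 1 := by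
  unfold pi3a
  split_ifs <;> norm_num

lemma pi3b_le (Q U N : ℕ) : 0 ≤ pi3b Q U N ∧ pi3b Q U N ≤ 1 := by
  unfold pi3b
  split_ifs <;> norm_num

lemma Mj_nonneg (Q U V N : ℕ) : 0 ≤ Mj Q U V N := by
  unfold Mj
  have := pi3a_le Q V N
  have := pi3b_le Q U N
  have := pik_le Q 4 N
  have := pik_le Q 5 N
  linarith

/-- the case that all prime factors of `N` are `> Q` -/
lemma case2 {z U y Q V K N : ℕ} {zs : ℕ → ℕ} (hU : 1 ≤ U) (hUV : U ≤ V) (hVy : V ≤ y)
    (hzK : zs K = Q) (hmono0 : ∀ i < K, zs i ≤ zs (i + 1)) (hyN : y * y < N) (hN6 : N < Q ^ 6)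
    (hNU : N ≤ U * U * U) (hNV : N ≤ U * V * Q)
    (hsq : Squarefree N) (hro : Rough z N) (hne : ∀ j, j ∣ N → ¬ (y ≤ j ∧ y ≤ N / j))
    (hr : Rough Q N) :
    HLQ z U y Q V K zs N ≤ pi0 N ∧ pi0 N - Mj Q U V N ≤ HLQ z U y Q V K zs N := by
  classical
  have hN0 := hro.1
  have hmono : ∀ i j, i ≤ j → j ≤ K → zs i ≤ zs j := by
    intro i j hij
    induction j, hij using Nat.le_induction with
    | base => intro _; exact le_rfl
    | succ j hj ih => intro h; exact (ih (by omega)).trans (hmono0 j (by omega))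
  have half : ∀ i < K, ∀ j, j ∣ N → alq Q (zs i) (zs (i + 1)) U j = 0 := by
    intro i hi j hj
    unfold alq
    apply sum_eq_zero
    intro q hq
    rw [mem_filter, Nat.mem_primeFactors] at hq
    have h1 := hr.2 q hq.1.1 (hq.1.2.1.trans hj)
    have h2 := hmono (i + 1) K hi le_rfl
    omega
  have hS : ∑ i ∈ range K, (T2 z U y (alq Q (zs i) (zs (i + 1)) U) (rg (zs (i + 1))) N +
      T2 z U y (rg (zs (i + 1))) (alq Q (zs i) (zs (i + 1)) U) N) = 0 := by
    apply sum_eq_zero
    intro i hi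
    rw [mem_range] at hi
    rw [T2_eq hro, T2_eq hro, sum_eq_zero, sum_eq_zero, add_zero]
    · intro j hj
      rw [Nat.mem_divisors] at hj
      rw [half i hi _ (Nat.div_dvd_of_dvd hj.1), mul_zero, ite_self]
    · intro j hj
      rw [Nat.mem_divisors] at hj
      rw [half i hi _ hj.1, zero_mul, ite_self]
  have hf1 : ∀ j, j ∣ N → pi0 j = if w j = 1 then 1 else 0 := fun j hj => pi0_w (hsq.squarefree_of_dvd hj)
  have hf2 : ∀ j, j ∣ N → pi2 Q j = if w j = 2 then 1 else 0 :=
    fun j hj => pi2_w (hsq.squarefree_of_dvd hj) (rough_of_dvd hr hj)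
  have hwp := w_pow hr
  have hw1 : w N ≠ 0 := by
    intro h
    have h1 := one_of_w hsq h
    subst h1
    have : y = 0 := by nlinarith
    omega
  have hw6 : w N < 6 := by
    by_contra h
    push Not at h
    have h5 : (Q + 1) ^ 6 ≤ (Q + 1) ^ w N := Nat.pow_le_pow_right (by omega) h
    have h6 : Q ^ 6 ≤ (Q + 1) ^ 6 := Nat.pow_le_pow_left (by omega) 6
    omega
  -- a prime factor `≤ U`
  have hA4 : 3 ≤ w N → 1 ≤ #(N.divisors.filter (fun j => w j = 1 ∧ j ≤ U)) := by
    intro h3
    by_contra hcon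
    have h0 : #(N.divisors.filter (fun j => w j = 1 ∧ j ≤ U)) = 0 := by omega
    rw [card_eq_zero] at h0
    have hrU : Rough U N := by
      refine ⟨hN0, fun p hp hpN => ?_⟩
      by_contra h
      push Not at h
      have : p ∈ N.divisors.filter (fun j => w j = 1 ∧ j ≤ U) := by
        rw [mem_filter, Nat.mem_divisors]
        exact ⟨⟨hpN, hN0⟩, w_prime hp, h⟩
      rw [h0] at this
      simp at this
    have h4 := w_pow hrU
    have h5 : (U + 1) ^ 3 ≤ (U + 1) ^ w N := Nat.pow_le_pow_right (by omega) h3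
    have h6 : U * U * U < (U + 1) ^ 3 := by ring_nf; omega
    omega
  have hA4' : #(N.divisors.filter (fun j => w j = 1 ∧ j ≤ U)) ≤ w N := by
    rw [show w N = #(N.divisors.filter (fun j => w j = 1)) by rw [c1 hsq, w]]
    apply card_le_card
    intro j hj
    rw [mem_filter] at hj ⊢
    exact ⟨hj.1, hj.2.1⟩
  have m1 := Mj_nonneg Q U V N
  have p3a := pi3a_le Q V N
  have p3b := pi3b_le Q U N
  have p4 := pik_le Q 4 N
  have p5 := pik_le Q 5 N
  unfold HLQ
  rw [hS, T1_gw hro hsq hr hU, T2_w hro hsq hf1 hf1, T2_w hro hsq hf1 hf2,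
    T2_w hro hsq hf2 hf1, hf1 N dvd_rfl]
  have hcases : w N = 1 ∨ w N = 2 ∨ w N = 3 ∨ w N = 4 ∨ w N = 5 := by omega
  rcases hcases with hk | hk | hk | hk | hk
  · -- `N` is a prime
    have n4 : #(N.divisors.filter (fun j => w j = 1 ∧ j ≤ U)) = 0 := by
      rw [card_eq_zero]
      apply filter_eq_empty_iff.2
      rintro j hj ⟨h1, h2⟩
      rw [Nat.mem_divisors] at hj
      have h3 := prime_of_w hsq hk
      rcases (Nat.dvd_prime h3).1 hj.1 with h4 | h4
      · rw [h4, w] at h1
        simp at h1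
      · have h9 : y ≤ y * y := Nat.le_mul_self y
        omega
    rw [n4]
    simp [hk]
    exact m1
  · -- two primes
    have s1 := split1 N.divisors (U := U) (y := y) (a := 1) (by omega)
    have s2 := split2 N.divisors (y := y) (a := 1)
    have n1 : #(N.divisors.filter (fun j => w j = 1)) = w N := by rw [c1 hsq, w]
    rw [n1] at s2
    have i1 := inv (a := 1) (b := 1) hsq hyN hne (by omega)
    rw [hk] at s2
    generalize #(N.divisors.filter (fun j => w j = 1 ∧ U < j ∧ j ≤ y)) = A1 at *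
    generalize #(N.divisors.filter (fun j => w j = 1 ∧ j ≤ U)) = A4 at *
    generalize #(N.divisors.filter (fun j => w j = 1 ∧ j ≤ y)) = A5 at *
    generalize #(N.divisors.filter (fun j => w j = 1 ∧ y < j)) = A6 at *
    have h6 : A4 + A1 = 1 := by omega
    have h7 : (A4 : ℝ) + A1 = 1 := by exact_mod_cast h6
    simp [hk]
    constructor <;> linarith
  · -- three primes
    have s2 := split2 N.divisors (y := y) (a := 1)
    have s3 := split3 N.divisors (V := V) (y := y) (a := 1) hVy
    have s4 := split1 N.divisors (U := U) (y := y) (a := 2) (by omega)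
    have i1 := inv (a := 2) (b := 1) hsq hyN hne (by omega)
    have hA4 := hA4 (by omega)
    have n1 : #(N.divisors.filter (fun j => w j = 1)) = w N := by rw [c1 hsq, w]
    simp only [hk]
    norm_num
    by_cases hbig : ∃ r : ℕ, r.Prime ∧ r ∣ N ∧ V < r
    · obtain ⟨r, hrp, hrN, hrV⟩ := hbig
      have hoth : ∀ p : ℕ, p.Prime → p ∣ N → p ≠ r → p ≤ U := by
        intro p hp hpN hpr
        by_contra hpU
        push Not at hpU
        have hc : Nat.Coprime p r := (Nat.coprime_primes hp hrp).2 hpr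
        have h5 : p * r ∣ N := hc.mul_dvd_of_dvd_of_dvd hpN hrN
        have h6 : w (p * r) = 2 := by
          rw [w, hc.primeFactors_mul, card_union_of_disjoint hc.disjoint_primeFactors, hp.primeFactors,
            hrp.primeFactors]
          simp
        have h7 := w_add hsq h5
        have h8 : w (N / (p * r)) = 1 := by omega
        have h9 := w_pow (rough_of_dvd hr (Nat.div_dvd_of_dvd h5))
        rw [h8, pow_one] at h9
        have h10 := Nat.mul_div_cancel' h5
        have h11 : U * V < p * r := by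
          calc U * V ≤ U * r := Nat.mul_le_mul_left _ hrV.le
            _ < p * r := Nat.mul_lt_mul_of_pos_right hpU hrp.pos
        have h12 : p * r * (Q + 1) ≤ N := by
          calc p * r * (Q + 1) ≤ p * r * (N / (p * r)) := Nat.mul_le_mul le_rfl h9
            _ = N := h10
        have h13 : U * V * Q ≤ p * r * Q := Nat.mul_le_mul_right _ h11.le
        have h14 : p * r * (Q + 1) = p * r * Q + p * r := by ring
        have h15 : 0 < p * r := Nat.mul_pos hp.pos hrp.pos
        omega
      have hA8 : #(N.divisors.filter (fun j => w j = 1 ∧ V < j)) = 1 := by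
        rw [card_eq_one]
        refine ⟨r, ?_⟩
        ext j
        rw [mem_filter, Nat.mem_divisors, mem_singleton]
        constructor
        · rintro ⟨h1, h2, h3⟩
          by_contra hjp
          have h4 := prime_of_w (hsq.squarefree_of_dvd h1.1) h2
          have := hoth j h4 h1.1 hjp
          omega
        · rintro rfl
          exact ⟨⟨hrN, hN0⟩, w_prime hrp, hrV⟩
      have hA4e : #(N.divisors.filter (fun j => w j = 1 ∧ j ≤ U)) = 2 := by
        have e1 : N.divisors.filter (fun j => w j = 1 ∧ j ≤ U) = (N.divisors.filter (fun j => w j = 1)).erase r := by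
          ext j
          rw [mem_erase, mem_filter, mem_filter]
          constructor
          · rintro ⟨h1, h2, h3⟩
            exact ⟨by omega, h1, h2⟩
          · rintro ⟨h1, h2, h3⟩
            have h4 := prime_of_w (hsq.squarefree_of_dvd (Nat.dvd_of_mem_divisors h2)) h3
            exact ⟨h2, h3, hoth j h4 (Nat.dvd_of_mem_divisors h2) h1⟩
        rw [e1, card_erase_of_mem, n1, hk]
        rw [mem_filter, Nat.mem_divisors]
        exact ⟨⟨hrN, hN0⟩, w_prime hrp⟩
      have hn3 : (#(N.divisors.filter (fun j => w j = 2 ∧ j ≤ U)) : ℝ) ≤ pi3b Q U N := by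
        rcases Nat.eq_zero_or_pos #(N.divisors.filter (fun j => w j = 2 ∧ j ≤ U)) with h0 | h0
        · rw [h0]; simpa using p3b.1
        · obtain ⟨j, hj⟩ := card_pos.1 h0
          rw [mem_filter, Nat.mem_divisors] at hj
          have h7 := w_add hsq hj.1.1
          have h8 : w (N / j) = 1 := by omega
          have h9 := prime_of_w (hsq.squarefree_of_dvd (Nat.div_dvd_of_dvd hj.1.1)) h8
          have e1 : pi3b Q U N = 1 := by
            unfold pi3b
            rw [if_pos]
            exact ⟨hsq, hr, hk, N / j, h9, Nat.div_dvd_of_dvd hj.1.1, by rw [Nat.div_div_self hj.1.1 hN0]; exact hj.2.2⟩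
          rw [e1]
          have : #(N.divisors.filter (fun j => w j = 2 ∧ j ≤ U)) ≤ 1 := by omega
          exact_mod_cast this
      generalize #(N.divisors.filter (fun j => w j = 1 ∧ j ≤ U)) = A4 at *
      generalize #(N.divisors.filter (fun j => w j = 1 ∧ V < j ∧ j ≤ y)) = A2 at *
      generalize #(N.divisors.filter (fun j => w j = 2 ∧ U < j ∧ j ≤ y)) = A3 at *
      generalize #(N.divisors.filter (fun j => w j = 1 ∧ y < j)) = A6 at *
      generalize #(N.divisors.filter (fun j => w j = 2 ∧ j ≤ y)) = A7 at *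
      generalize #(N.divisors.filter (fun j => w j = 2 ∧ j ≤ U)) = A9 at *
      generalize #(N.divisors.filter (fun j => w j = 1 ∧ V < j)) = A8 at *
      have t1 : (A2 : ℝ) + A3 + A9 = 1 := by
        have : A2 + A3 + A9 = 1 := by omega
        exact_mod_cast this
      have t2 : (A4 : ℝ) = 2 := by exact_mod_cast hA4e
      have t3 : (0 : ℝ) ≤ A9 := Nat.cast_nonneg _
      unfold Mj
      constructor <;> linarith
    · push Not at hbig
      have hA8 : #(N.divisors.filter (fun j => w j = 1 ∧ V < j)) = 0 := by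
        rw [card_eq_zero]
        apply filter_eq_empty_iff.2
        rintro j hj ⟨h1, h2⟩
        rw [Nat.mem_divisors] at hj
        have h3 := prime_of_w (hsq.squarefree_of_dvd hj.1) h1
        have := hbig j h3 hj.1
        omega
      have e3 : pi3a Q V N = 1 := by
        unfold pi3a
        rw [if_pos]
        exact ⟨hsq, hr, hk, hbig⟩
      rw [hk] at hA4'
      generalize #(N.divisors.filter (fun j => w j = 1 ∧ j ≤ U)) = A4 at *
      generalize #(N.divisors.filter (fun j => w j = 1 ∧ V < j ∧ j ≤ y)) = A2 at *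
      generalize #(N.divisors.filter (fun j => w j = 2 ∧ U < j ∧ j ≤ y)) = A3 at *
      generalize #(N.divisors.filter (fun j => w j = 1 ∧ y < j)) = A6 at *
      generalize #(N.divisors.filter (fun j => w j = 2 ∧ j ≤ y)) = A7 at *
      generalize #(N.divisors.filter (fun j => w j = 2 ∧ j ≤ U)) = A9 at *
      generalize #(N.divisors.filter (fun j => w j = 1 ∧ V < j)) = A8 at *
      have t1 : (A2 : ℝ) = 0 := by
        have : A2 = 0 := by omega
        exact_mod_cast this
      have t2 : (A3 : ℝ) = 0 := by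
        have : A3 = 0 := by omega
        exact_mod_cast this
      have t3 : (1 : ℝ) ≤ A4 := by exact_mod_cast hA4
      have t4 : (A4 : ℝ) ≤ 3 := by exact_mod_cast hA4'
      unfold Mj
      rw [e3]
      constructor <;> linarith
  · -- four primes
    have hA4 := hA4 (by omega)
    have e3 : pik Q 4 N = 1 := by
      unfold pik
      rw [if_pos ⟨hsq, hr, hk⟩]
    rw [hk] at hA4'
    simp only [hk, show ¬ (4 = 1 + 1) by norm_num, show ¬ (4 = 1 + 2) by norm_num, show ¬ (4 = 2 + 1) by norm_num,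
      show ¬ (4 = 1) by norm_num, if_false]
    generalize #(N.divisors.filter (fun j => w j = 1 ∧ j ≤ U)) = A4 at *
    have t3 : (1 : ℝ) ≤ A4 := by exact_mod_cast hA4
    have t4 : (A4 : ℝ) ≤ 4 := by exact_mod_cast hA4'
    unfold Mj
    rw [e3]
    constructor <;> linarith
  · -- five primes
    have hA4 := hA4 (by omega)
    have e3 : pik Q 5 N = 1 := by
      unfold pik
      rw [if_pos ⟨hsq, hr, hk⟩]
    rw [hk] at hA4'
    simp only [hk, show ¬ (5 = 1 + 1) by norm_num, show ¬ (5 = 1 + 2) by norm_num, show ¬ (5 = 2 + 1) by norm_num,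
      show ¬ (5 = 1) by norm_num, if_false]
    generalize #(N.divisors.filter (fun j => w j = 1 ∧ j ≤ U)) = A4 at *
    have t3 : (1 : ℝ) ≤ A4 := by exact_mod_cast hA4
    have t4 : (A4 : ℝ) ≤ 5 := by exact_mod_cast hA4'
    unfold Mj
    rw [e3]
    constructor <;> linarith

/-- **the combinatorial inequality** -/
theorem good {z U y Q V K N : ℕ} {zs : ℕ → ℕ} (hU : 1 ≤ U) (hQU : Q ≤ U) (hUV : U ≤ V) (hVy : V ≤ y)
    (hz0 : zs 0 = z) (hzK : zs K = Q) (hmono0 : ∀ i < K, zs i ≤ zs (i + 1)) (hyN : y * y < N) (hN6 : N < Q ^ 6)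
    (hUUQ : U * U * Q < N) (hNU : N ≤ U * U * U) (hNV : N ≤ U * V * Q)
    (hsq : Squarefree N) (hro : Rough z N) (hne : ∀ j, j ∣ N → ¬ (y ≤ j ∧ y ≤ N / j))
    (huniq : ∀ i < K, ∀ p q : ℕ, p.Prime → q.Prime → p ∣ N → q ∣ N → zs i < p → p ≤ zs (i + 1) → zs i < q →
      q ≤ zs (i + 1) → p = q) :
    HLQ z U y Q V K zs N ≤ pi0 N ∧ pi0 N - Mj Q U V N ≤ HLQ z U y Q V K zs N := by
  by_cases hQ : Rough Q N
  · exact case2 hU hUV hVy hzK hmono0 hyN hN6 hNU hNV hsq hro hne hQ
  · rw [case1 hQU hUV hVy hz0 hzK hmono0 hyN hUUQ hsq hro hne huniq hQ]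
    have h6 : pi0 N = 0 := by
      by_contra h
      have h7 := pi0_ne h
      apply hQ
      apply prime_rough h7
      have h9 : y ≤ y * y := Nat.le_mul_self y
      omega
    have := Mj_nonneg Q U V N
    rw [h6]
    constructor <;> linarith

end Pool.Agent.W2helper63.TA.Idn
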