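import Mathlib
import Pool.Agent.W2helper63.TA.Fin
import Pool.Agent.W2helper63.TA.Alq
import Pool.Agent.W2helper63.TA.X3q
import Pool.Agent.N792.T9Q

/-!
The lower bound for the primes, for almost all `c ≤ C`, `C ≥ x^(2/3+ε)` (helper63).
-/

set_option autoImplicit false

namespace Pool.Agent.W2helper63.TA

open Finset Filter Topology
open Pool.Agent.N792

theorem lqs (a : ℤ) (ha : 0 < a) (b : ℤ) : LQS a b :=
  lamq q1 q4 a ha b (r1 a ha b) (r2 a ha b) x1q (x2 a ha b (r1 a ha b) (r2 a ha b)) (x3q a ha b) (x6 a ha b) (x7 a ha b)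

theorem tq (a : ℤ) (ha : 0 < a) (b : ℤ) (ε η : ℝ) (hε : 0 < ε) (hη : 0 < η) : ConclQ a b ε η :=
  conclq a ha b (lqs a ha b) (x4q a ha b) (x8 a ha b) (x9 a ha b) (x10 a ha b) ε η hε hη

/-- **the lower bound for `P_a` in intervals, for almost all `a ≤ A`, `N^(2/3+ε) ≤ A ≤ N`** -/
theorem tq_int (ε η : ℝ) (hε : 0 < ε) (hη : 0 < η) : ∃ N0 : ℕ, ∀ N : ℕ, N0 ≤ N → ∀ A : ℕ,
    (N : ℝ) ^ (2 / 3 + ε) ≤ A → A ≤ N → ∃ Ex ⊆ Icc 1 A, (#Ex : ℝ) ≤ η * A ∧ ∀ a ∈ Icc 1 A, a ∉ Ex →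
      ∃ h : ℝ, 0 < h ∧ Tendsto (fun X : ℕ => ∏ w ∈ (range (X + 1)).filter (fun w => Nat.Prime w ∧ w ≠ 2),
          (1 - (jacobiSym (-(a : ℤ)) w : ℝ) / ((w : ℝ) - 1))) atTop (𝓝 h) ∧
        ∀ u v : ℕ, 2 ≤ u → u ≤ v → v ≤ N →
          1 / 4 * (1 / 2 * h * ∫ t in (u : ℝ)..(v : ℝ), 1 / Real.log t) -
            η * (1 / 2 * h * ∫ t in (2 : ℝ)..(N : ℝ), 1 / Real.log t) ≤
          (#((Ioc u v).filter (fun n : ℕ => Nat.Prime ((n : ℤ) ^ 2 + a).natAbs)) : ℝ) := by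
  obtain ⟨θ, hθ⟩ : ∃ θ : ℝ, θ = η / 16 := ⟨_, rfl⟩
  have hθ0 : 0 < θ := by rw [hθ]; positivity
  obtain ⟨x0, hx0⟩ := tq 1 one_pos 0 ε θ hε hθ0
  obtain ⟨x1, hx1⟩ := li_asym 1 one_pos 0 θ hθ0
  obtain ⟨x2, hx2⟩ := eventually_atTop.1 (li_upper2 θ hθ0)
  obtain ⟨x3, hx3⟩ := eventually_atTop.1 (Shp.log_ge 1)
  obtain ⟨x4, hx4⟩ := eventually_atTop.1 li_lower
  refine ⟨max (max x0 x1) (max (max x2 x3) (max x4 2)), fun N hN A hA1 hA2 => ?_⟩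
  obtain ⟨Ex, hE1, hE2, hE3⟩ := hx0 N (by omega) A hA1 hA2
  refine ⟨Ex, hE1, hE2.trans (mul_le_mul_of_nonneg_right (by linarith) (Nat.cast_nonneg _)), fun a ha haE => ?_⟩
  have haI := mem_Icc.1 ha
  obtain ⟨S, hS0, hSt, hb⟩ := hE3 a ha haE (adm_one a haI.1)
  have hSt' : Tendsto (fun X : ℕ => ∏ w ∈ (range (X + 1)).filter (fun w => Nat.Prime w ∧ w ≠ 2),
          (1 - (jacobiSym (-(a : ℤ)) w : ℝ) / ((w : ℝ) - 1))) atTop (𝓝 S) := by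
    refine hSt.congr fun X => ?_
    exact partialC_one a X
  refine ⟨S, hS0, hSt', fun u v hu huv hvN => ?_⟩
  have k1 := hb u v huv hvN
  have k2 := (abs_le.1 (hx1 N (by omega) a (mem_Icc.2 ⟨haI.1, haI.2.trans hA2⟩) u v huv hvN)).1
  have k3 := hx2 N (by omega) u v hu huv hvN
  have k4 := hx3 N (by omega)
  have k5 := hx4 N (by omega)
  have he : eps 1 0 = 1 := by unfold eps; norm_num
  have hg : gcdProd 1 0 = 1 := by unfold gcdProd; simp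
  have hP : (#((Ioc u v).filter (fun m : ℕ => (fv 1 0 a m).toNat.Prime)) : ℝ) =
      (#((Ioc u v).filter (fun n : ℕ => Nat.Prime ((n : ℤ) ^ 2 + a).natAbs)) : ℝ) := by
    congr 2
    apply filter_congr
    intro m _
    have e1 : (fv 1 0 (a : ℤ) m).toNat = ((m : ℤ) ^ 2 + a).natAbs := by
      unfold fv
      have : (0 : ℤ) ≤ (m : ℤ) ^ 2 + a := by positivity
      have e2 : 1 * (m : ℤ) ^ 2 + 0 * m + a = (m : ℤ) ^ 2 + a := by ring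
      rw [e2]
      omega
    rw [e1]
  rw [hP, he, hg, one_mul, mul_one] at k1
  obtain ⟨Sg, hSg⟩ : ∃ Sg : ℝ, Sg = ∑ m ∈ Ioc u v, 1 / Real.log (((1 : ℤ) : ℝ) * m ^ 2 + ((0 : ℤ) : ℝ) * m + (a : ℝ)) := ⟨_, rfl⟩
  have k2' : -(θ * (N / Real.log N)) ≤ Sg - ((v : ℝ) - u) / (2 * Real.log N) := by
    rw [hSg]
    exact_mod_cast k2
  have k1' : 1 / 4 * (S * Sg) - θ * (S * N / Real.log N) ≤
      (#((Ioc u v).filter (fun n : ℕ => Nat.Prime ((n : ℤ) ^ 2 + a).natAbs)) : ℝ) := by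
    rw [hSg]
    exact_mod_cast k1
  refine le_trans ?_ k1'
  obtain ⟨X, hX⟩ : ∃ X : ℝ, X = (N : ℝ) / Real.log N := ⟨_, rfl⟩
  obtain ⟨D, hD⟩ : ∃ D : ℝ, D = ((v : ℝ) - u) / Real.log N := ⟨_, rfl⟩
  have hL0 : 0 < Real.log N := by linarith
  have hX0 : 0 < X := by
    rw [hX]
    have : (0 : ℝ) < N := by exact_mod_cast (by omega : 0 < N)
    positivity
  have e1 : ((v : ℝ) - u) / (2 * Real.log N) = D / 2 := by rw [hD]; field_simp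
  have e2 : S * N / Real.log N = S * X := by rw [hX]; ring
  rw [e1, ← hX] at k2'
  rw [← hX, ← hD] at k3
  rw [← hX] at k5
  rw [e2]
  obtain ⟨I, hI⟩ : ∃ I : ℝ, I = ∫ t in (2 : ℝ)..(N : ℝ), 1 / Real.log t := ⟨_, rfl⟩
  obtain ⟨I1, hI1⟩ : ∃ I1 : ℝ, I1 = ∫ t in (u : ℝ)..(v : ℝ), 1 / Real.log t := ⟨_, rfl⟩
  rw [← hI] at k5 ⊢
  rw [← hI1] at k3 ⊢
  have m1 : S * (D / 2 - θ * X) ≤ S * Sg := mul_le_mul_of_nonneg_left (by linarith) hS0.le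
  have m2 : S * I1 ≤ S * (D + θ * X) := mul_le_mul_of_nonneg_left k3 hS0.le
  have m3 : θ * (S * X) ≤ θ * (S * (2 * I)) := by gcongr
  have m4 : θ * (S * (2 * I)) = η / 8 * (S * I) := by rw [hθ]; ring
  have m5 : 0 ≤ η * (S * I) := by
    have : 0 ≤ I := by linarith
    positivity
  nlinarith

end Pool.Agent.W2helper63.TA
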